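import Pool.Agent.H236R3.Obs

set_option autoImplicit false

open Polynomial

namespace Pool.Agent.H236R3

def xm {K : Type} [Field K] (a b : K) : (K × K × K) →ₗ[K] (K × K × K) where
  toFun v := (a * v.2.1 + b * v.2.2, 0, 0)
  map_add' u v := by
    ext
    all_goals simp
    all_goals ring
  map_smul' c v := by
    ext
    all_goals simp
    all_goals ring

theorem xm_apply {K : Type} [Field K] (a b : K) (v : K × K × K) :
    xm a b v = (a * v.2.1 + b * v.2.2, 0, 0) := rfl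

def zc2Equiv {K : Type} [Field K] : Zc (0 : K →ₗ[K] K) 0 2 ≃ K × K × K × K where
  toFun z := ((z.1 0).1, (z.1 1).1, (z.1 0).2, (z.1 1).2)
  invFun c := ⟨![(c.1, c.2.2.1), (c.2.1, c.2.2.2)], fun _ => rfl⟩
  left_inv z := by
    apply Subtype.ext
    funext k
    fin_cases k <;> rfl
  right_inv c := rfl

def prod2Equiv {K : Type} [Field K] : (K × (Fin 2 → K)) ≃ₗ[K] (K × K × K) :=
  LinearEquiv.prodCongr (LinearEquiv.refl K K) (LinearEquiv.finTwoArrow K K)

theorem S_ext2 {K : Type} [Field K] (T : Tr) :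
    S K (.ext 2 T) K 0 0 = ∑ᶠ c : K × K × K × K,
      S K T (K × K × K) (xm c.1 c.2.1) (xm c.2.2.1 c.2.2.2) := by
  show (∑ᶠ z : Zc (0 : K →ₗ[K] K) 0 2, S K T (K × (Fin 2 → K)) (extMap 2 0 (fun k => (z.1 k).1))
      (extMap 2 0 (fun k => (z.1 k).2))) = _
  rw [← finsum_comp_equiv zc2Equiv]
  refine finsum_congr fun z => ?_
  refine S_iso T prod2Equiv _ _ _ _ ?_ ?_
  · rintro ⟨b, c⟩
    rw [extMap_apply]
    simp only [prod2Equiv, LinearEquiv.prodCongr_apply, LinearEquiv.refl_apply]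
    rw [xm_apply]
    simp [zc2Equiv, Fin.sum_univ_two, mul_comm]
  · rintro ⟨b, c⟩
    rw [extMap_apply]
    simp only [prod2Equiv, LinearEquiv.prodCongr_apply, LinearEquiv.refl_apply]
    rw [xm_apply]
    simp [zc2Equiv, Fin.sum_univ_two, mul_comm]

theorem S_base {K : Type} [Field K] (T : Tr) :
    S K (.ext 1 (.ext 2 T)) (Empty →₀ K) 0 0 = ∑ᶠ c : K × K × K × K,
      S K T (K × K × K) (xm c.1 c.2.1) (xm c.2.2.1 c.2.2.2) := by
  rw [← S_ext2, S_ext1]
  have hu : Unique (Z1 (0 : (Empty →₀ K) →ₗ[K] (Empty →₀ K)) 0) :=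
    { default := ⟨(0, 0), rfl⟩
      uniq := fun p => Subtype.ext (Prod.ext (Subsingleton.elim _ _) (Subsingleton.elim _ _)) }
  rw [finsum_unique]
  let θ : ((Empty →₀ K) × K) ≃ₗ[K] K := LinearEquiv.ofLinearMap (LinearMap.snd K _ _)
    (LinearMap.inr K _ _) (by
      apply LinearMap.ext
      intro c
      rfl) (by
      apply LinearMap.ext
      rintro ⟨b, c⟩
      exact Prod.ext (Subsingleton.elim _ _) rfl)
  refine S_iso _ θ _ _ _ _ ?_ ?_
  · rintro ⟨b, c⟩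
    rw [ext1_apply]
    simp [θ]
  · rintro ⟨b, c⟩
    rw [ext1_apply]
    simp [θ]

theorem lsum_base (L : List (ℚ[X] × Tr))
    (H : ∀ T : Tr, ∃ P : ℚ[X], ∀ (K : Type) [Field K] [Finite K],
      (S K T (Empty →₀ K) 0 0 : ℚ) = P.eval (Nat.card K : ℚ)) :
    ∃ A : ℚ[X], ∀ (K : Type) [Field K] [Finite K],
      (∑ᶠ c : K × K × K × K, lsum K L (K × K × K) (xm c.1 c.2.1) (xm c.2.2.1 c.2.2.2)) =
        A.eval (Nat.card K : ℚ) := by
  induction L with
  | nil => exact ⟨0, fun K _ _ => by simp [lsum]⟩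
  | cons a L ih =>
    obtain ⟨A, ih⟩ := ih
    obtain ⟨P, hP⟩ := H (.ext 1 (.ext 2 a.2))
    refine ⟨a.1 * P + A, fun K _ _ => ?_⟩
    have := Fintype.ofFinite K
    have h1 : ∀ (B : Type) [AddCommGroup B] [Module K B] (x y : B →ₗ[K] B) (a : ℚ[X] × Tr)
        (L : List (ℚ[X] × Tr)),
        lsum K (a :: L) B x y = a.1.eval (Nat.card K : ℚ) * (S K a.2 B x y : ℚ) +
        lsum K L B x y := by
      intros
      simp [lsum]
    rw [eval_add, eval_mul, ← hP K, ← ih K, S_base]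
    rw [finsum_eq_sum_of_fintype, finsum_eq_sum_of_fintype, finsum_eq_sum_of_fintype]
    simp only [h1]
    rw [Finset.sum_add_distrib, Nat.cast_sum, Finset.mul_sum]

theorem rep_base {Φ : Ob} (h : Rep Φ)
    (H : ∀ T : Tr, ∃ P : ℚ[X], ∀ (K : Type) [Field K] [Finite K],
      (S K T (Empty →₀ K) 0 0 : ℚ) = P.eval (Nat.card K : ℚ)) :
    ∃ A : ℚ[X], ∀ (K : Type) [Field K] [Finite K],
      (∑ᶠ c : K × K × K × K, Φ K (K × K × K) (xm c.1 c.2.1) (xm c.2.2.1 c.2.2.2)) =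
        A.eval (Nat.card K : ℚ) := by
  obtain ⟨L, h⟩ := h
  obtain ⟨A, hA⟩ := lsum_base L H
  refine ⟨A, fun K _ _ => ?_⟩
  rw [← hA K]
  exact finsum_congr fun c => h K _ _ _

end Pool.Agent.H236R3
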