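import Pool.Agent.H236R3.Sys

set_option autoImplicit false

namespace Pool.Agent.H236R3

/-- Shapes of rooted forests, with dimensions. -/
inductive Tr : Type
  | nil : Tr
  | ext (d : ℕ) (T : Tr) : Tr
  | par (T₁ T₂ : Tr) : Tr

def Tr.sys : Tr → (ι : Type) → Sys ι
  | .nil, ι => Sys.nil ι
  | .ext d T, ι => Sys.ext d (T.sys (ι ⊕ Fin d))
  | .par T₁ T₂, ι => Sys.par (T₁.sys ι) (T₂.sys ι)

section

variable {K : Type} [Field K]

/-- Pairs of `d`-tuples compatible with `x, y`. -/
def Zc {B : Type} [AddCommGroup B] [Module K B] (x y : B →ₗ[K] B) (d : ℕ) : Type :=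
  {z : Fin d → B × B // ∀ k, y (z k).1 = x (z k).2}

noncomputable def extMap {B : Type} [AddCommGroup B] [Module K B] (d : ℕ) (x : B →ₗ[K] B)
    (a : Fin d → B) : (B × (Fin d → K)) →ₗ[K] (B × (Fin d → K)) :=
  (LinearMap.inl K B (Fin d → K)).comp (LinearMap.coprod x (Fintype.linearCombination K a))

theorem extMap_apply {B : Type} [AddCommGroup B] [Module K B] (d : ℕ) (x : B →ₗ[K] B)
    (a : Fin d → B) (b : B) (c : Fin d → K) :
    extMap d x a (b, c) = (x b + ∑ k, c k • a k, 0) := by
  simp [extMap, Fintype.linearCombination_apply]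

end

noncomputable def S (K : Type) [Field K] : (T : Tr) → (B : Type) → [AddCommGroup B] →
    [Module K B] → (x y : B →ₗ[K] B) → ℕ
  | .nil, _, _, _, _, _ => 1
  | .ext d T, B, _, _, x, y => ∑ᶠ z : Zc x y d,
      S K T (B × (Fin d → K)) (extMap d x (fun k => (z.1 k).1)) (extMap d y (fun k => (z.1 k).2))
  | .par T₁ T₂, B, _, _, x, y => S K T₁ B x y * S K T₂ B x y

section

variable {K : Type} [Field K]

theorem S_iso (T : Tr) : ∀ {B B' : Type} [AddCommGroup B] [Module K B] [AddCommGroup B']
    [Module K B'] (θ : B ≃ₗ[K] B') (x y : B →ₗ[K] B) (x' y' : B' →ₗ[K] B')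
    (_hx : ∀ b, θ (x b) = x' (θ b)) (_hy : ∀ b, θ (y b) = y' (θ b)),
    S K T B x y = S K T B' x' y' := by
  induction T with
  | nil => intros; rfl
  | ext d T ih =>
    intro B B' _ _ _ _ θ x y x' y' hx hy
    let e : Zc x y d ≃ Zc x' y' d :=
      { toFun := fun z => ⟨fun k => (θ (z.1 k).1, θ (z.1 k).2), fun k => by
          show y' (θ (z.1 k).1) = x' (θ (z.1 k).2)
          rw [← hx, ← hy, z.2 k]⟩
        invFun := fun z => ⟨fun k => (θ.symm (z.1 k).1, θ.symm (z.1 k).2), fun k => by
          show y (θ.symm (z.1 k).1) = x (θ.symm (z.1 k).2)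
          apply θ.injective
          rw [hx, hy]
          simpa using z.2 k⟩
        left_inv := fun z => by
          apply Subtype.ext
          funext k
          simp
        right_inv := fun z => by
          apply Subtype.ext
          funext k
          simp }
    show (∑ᶠ z : Zc x y d, S K T (B × (Fin d → K)) (extMap d x (fun k => (z.1 k).1))
      (extMap d y (fun k => (z.1 k).2))) = ∑ᶠ z : Zc x' y' d, S K T (B' × (Fin d → K))
      (extMap d x' (fun k => (z.1 k).1)) (extMap d y' (fun k => (z.1 k).2))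
    rw [← finsum_comp_equiv e]
    refine finsum_congr fun z => ?_
    refine ih (LinearEquiv.prodCongr θ (LinearEquiv.refl K (Fin d → K))) _ _ _ _ ?_ ?_
    · rintro ⟨b, c⟩
      simp only [extMap_apply, LinearEquiv.prodCongr_apply, LinearEquiv.refl_apply, map_add,
        map_sum, map_smul, hx]
      rfl
    · rintro ⟨b, c⟩
      simp only [extMap_apply, LinearEquiv.prodCongr_apply, LinearEquiv.refl_apply, map_add,
        map_sum, map_smul, hy]
      rfl
  | par T₁ T₂ ih₁ ih₂ =>
    intro B B' _ _ _ _ θ x y x' y' hx hy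
    show S K T₁ B x y * S K T₂ B x y = S K T₁ B' x' y' * S K T₂ B' x' y'
    rw [ih₁ θ x y x' y' hx hy, ih₂ θ x y x' y' hx hy]

end

end Pool.Agent.H236R3
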