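import Pool.Agent.H236R3.Base

set_option autoImplicit false

open Polynomial

namespace Pool.Agent.H236R3

section

variable {K : Type} [Field K]

/-- The linear condition. -/
def lin (A B C : K) (v : K × K × K × K) : K := B * v.1 + C * v.2.1 - A * v.2.2.1 - B * v.2.2.2

theorem card_lin [Finite K] (A B C : K) (h : ¬ (A = 0 ∧ B = 0 ∧ C = 0)) (β : K) :
    Nat.card {v : K × K × K × K // lin A B C v = β} = Nat.card K ^ 3 := by
  have hK3 : Nat.card (K × K × K) = Nat.card K ^ 3 := by
    rw [Nat.card_prod, Nat.card_prod]
    ring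
  rw [← hK3]
  apply Nat.card_congr
  by_cases hB : B = 0
  · by_cases hC : C = 0
    · have hA : A ≠ 0 := fun hA => h ⟨hA, hB, hC⟩
      exact
        { toFun := fun v => (v.1.1, v.1.2.1, v.1.2.2.2)
          invFun := fun w => ⟨(w.1, w.2.1, (-β + B * w.1 + C * w.2.1 - B * w.2.2) / A, w.2.2), by
            simp only [lin]
            field_simp
            ring⟩
          left_inv := by
            rintro ⟨⟨a, b, c, d⟩, hv⟩
            simp only [lin] at hv
            simp only [Subtype.mk.injEq, Prod.mk.injEq, true_and, and_true]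
            rw [← hv]
            field_simp
            ring
          right_inv := by
            rintro ⟨a, b, c⟩
            rfl }
    · exact
        { toFun := fun v => (v.1.1, v.1.2.2.1, v.1.2.2.2)
          invFun := fun w => ⟨(w.1, (β - B * w.1 + A * w.2.1 + B * w.2.2) / C, w.2.1, w.2.2), by
            simp only [lin]
            field_simp
            ring⟩
          left_inv := by
            rintro ⟨⟨a, b, c, d⟩, hv⟩
            simp only [lin] at hv
            simp only [Subtype.mk.injEq, Prod.mk.injEq, true_and, and_true]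
            rw [← hv]
            field_simp
            ring
          right_inv := by
            rintro ⟨a, b, c⟩
            rfl }
  · exact
      { toFun := fun v => (v.1.2.1, v.1.2.2.1, v.1.2.2.2)
        invFun := fun w => ⟨((β - C * w.1 + A * w.2.1 + B * w.2.2) / B, w.1, w.2.1, w.2.2), by
          simp only [lin]
          field_simp
          ring⟩
        left_inv := by
          rintro ⟨⟨a, b, c, d⟩, hv⟩
          simp only [lin] at hv
          simp only [Subtype.mk.injEq, Prod.mk.injEq, and_true]
          rw [← hv]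
          field_simp
          ring
        right_inv := by
          rintro ⟨a, b, c⟩
          rfl }

/-- Number of `(c, c')` with `c s' = c' s` and `c g' = c' g`. -/
noncomputable def NN (s s' g g' : K) : ℕ := Nat.card {p : K × K // p.1 * s' = p.2 * s ∧ p.1 * g' = p.2 * g}

theorem NN_zero [Finite K] : NN (0 : K) 0 0 0 = Nat.card K ^ 2 := by
  unfold NN
  have : Nat.card {p : K × K // p.1 * (0 : K) = p.2 * 0 ∧ p.1 * (0 : K) = p.2 * 0} =
      Nat.card (K × K) := by
    apply Nat.card_congr
    exact
      { toFun := fun p => p.1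
        invFun := fun p => ⟨p, by simp⟩
        left_inv := fun p => rfl
        right_inv := fun p => rfl }
  rw [this, Nat.card_prod]
  ring

theorem NN_nz [Finite K] (s s' g g' : K) (h : ¬ (s = 0 ∧ s' = 0)) :
    NN s s' g g' = Nat.card {t : K // t * (s * g' - s' * g) = 0} := by
  unfold NN
  apply Nat.card_congr
  by_cases hs : s = 0
  · have hs' : s' ≠ 0 := fun h' => h ⟨hs, h'⟩
    exact
      { toFun := fun p => ⟨p.1.2 / s', by
          obtain ⟨⟨c, c'⟩, h1, h2⟩ := p
          simp only at h1 h2 ⊢
          rw [hs, mul_zero] at h1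
          have hc : c = 0 := (mul_eq_zero.1 h1).resolve_right hs'
          rw [hc, zero_mul] at h2
          rw [hs]
          have e : c' / s' * s' = c' := div_mul_cancel₀ _ hs'
          linear_combination (-g) * e + h2⟩
        invFun := fun t => ⟨(t.1 * s, t.1 * s'), by ring, by
          have := t.2
          linear_combination this⟩
        left_inv := by
          rintro ⟨⟨c, c'⟩, h1, h2⟩
          simp only at h1 h2
          rw [hs, mul_zero] at h1
          have hc : c = 0 := (mul_eq_zero.1 h1).resolve_right hs'
          apply Subtype.ext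
          simp only [hs, hc, mul_zero, Prod.mk.injEq, true_and]
          field_simp
        right_inv := by
          rintro ⟨t, ht⟩
          apply Subtype.ext
          simp only
          field_simp }
  · exact
      { toFun := fun p => ⟨p.1.1 / s, by
          obtain ⟨⟨c, c'⟩, h1, h2⟩ := p
          simp only at h1 h2 ⊢
          have hc : c' = c * s' / s := by
            field_simp
            exact h1.symm
          rw [hc] at h2
          field_simp at h2 ⊢
          linear_combination h2⟩
        invFun := fun t => ⟨(t.1 * s, t.1 * s'), by ring, by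
          have := t.2
          linear_combination this⟩
        left_inv := by
          rintro ⟨⟨c, c'⟩, h1, h2⟩
          simp only at h1 h2
          apply Subtype.ext
          simp only [Prod.mk.injEq]
          constructor
          · field_simp
          · field_simp
            linear_combination h1
        right_inv := by
          rintro ⟨t, ht⟩
          apply Subtype.ext
          simp only
          field_simp }

theorem card_mul_zero [Finite K] [DecidableEq K] (u : K) :
    Nat.card {t : K // t * u = 0} = if u = 0 then Nat.card K else 1 := by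
  split_ifs with hu
  · subst hu
    apply Nat.card_congr
    exact
      { toFun := fun p => p.1
        invFun := fun p => ⟨p, by simp⟩
        left_inv := fun p => rfl
        right_inv := fun p => rfl }
  · rw [Nat.card_eq_one_iff_unique]
    refine ⟨⟨fun a b => Subtype.ext ?_⟩, ⟨⟨0, by simp⟩⟩⟩
    rw [(mul_eq_zero.1 a.2).resolve_right hu, (mul_eq_zero.1 b.2).resolve_right hu]

/-- The number of zeros of a binary quadratic form. -/
noncomputable def Z0 (a b c : K) : ℕ :=
  Nat.card {p : K × K // a * p.1 ^ 2 + b * (p.1 * p.2) + c * p.2 ^ 2 = 0}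

theorem sum_NN [Fintype K] [DecidableEq K] (ρ₁ ρ₂ ρ₁' ρ₂' : K) :
    (∑ p : K × K, (NN p.1 p.2 (p.2 * ρ₂ - p.1 * ρ₂') (p.1 * ρ₁' - p.2 * ρ₁) : ℚ)) =
      2 * (Nat.card K : ℚ) ^ 2 - Nat.card K +
        ((Nat.card K : ℚ) - 1) * Z0 ρ₁' (ρ₂' - ρ₁) (-ρ₂) := by
  have h1 : ∀ p : K × K, (NN p.1 p.2 (p.2 * ρ₂ - p.1 * ρ₂') (p.1 * ρ₁' - p.2 * ρ₁) : ℚ) =
      1 + ((Nat.card K : ℚ) - 1) * (if ρ₁' * p.1 ^ 2 + (ρ₂' - ρ₁) * (p.1 * p.2) +
        (-ρ₂) * p.2 ^ 2 = 0 then 1 else 0) +
      ((Nat.card K : ℚ) ^ 2 - Nat.card K) * (if p = (0, 0) then 1 else 0) := by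
    rintro ⟨s, s'⟩
    by_cases h : s = 0 ∧ s' = 0
    · obtain ⟨rfl, rfl⟩ := h
      have := NN_zero (K := K)
      simp only [zero_mul, sub_zero, this]
      simp
    · have hne : ((s, s') : K × K) ≠ (0, 0) := by
        intro h'
        simp only [Prod.mk.injEq] at h'
        exact h h'
      rw [if_neg hne, NN_nz _ _ _ _ h, card_mul_zero]
      have he : s * (s * ρ₁' - s' * ρ₁) - s' * (s' * ρ₂ - s * ρ₂') =
          ρ₁' * s ^ 2 + (ρ₂' - ρ₁) * (s * s') + (-ρ₂) * s' ^ 2 := by ring
      rw [he]
      split_ifs <;> simp
  rw [Finset.sum_congr rfl fun p _ => h1 p, Finset.sum_add_distrib, Finset.sum_add_distrib,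
    ← Finset.mul_sum, ← Finset.mul_sum]
  have h2 : (∑ p : K × K, (if ρ₁' * p.1 ^ 2 + (ρ₂' - ρ₁) * (p.1 * p.2) +
        (-ρ₂) * p.2 ^ 2 = 0 then (1 : ℚ) else 0)) = Z0 ρ₁' (ρ₂' - ρ₁) (-ρ₂) := by
    rw [Finset.sum_boole, Z0, Nat.card_eq_fintype_card, Fintype.card_subtype]
  have h3 : (∑ p : K × K, (if p = (0, 0) then (1 : ℚ) else 0)) = 1 := by
    simp
  rw [h2, h3]
  simp only [Finset.sum_const, Finset.card_univ, Fintype.card_prod, nsmul_eq_mul, Nat.cast_mul,
    Nat.card_eq_fintype_card]
  ring

end

end Pool.Agent.H236R3
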