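import Pool.Agent.H236R3.Eval1

set_option autoImplicit false

open Polynomial

namespace Pool.Agent.H236R3

section

variable {K : Type} [Field K]

noncomputable def xH (A B : K) : ((K × K × K) × K) →ₗ[K] ((K × K × K) × K) :=
  ext1 (xm A B) (0, 1, 0)

noncomputable def yH (B C : K) : ((K × K × K) × K) →ₗ[K] ((K × K × K) × K) :=
  ext1 (xm B C) (0, 0, 1)

theorem xH_apply (A B : K) (m : K × K × K) (g : K) :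
    xH A B (m, g) = ((A * m.2.1 + B * m.2.2, g, 0), 0) := by
  rw [xH, ext1_apply, xm_apply]
  simp

theorem yH_apply (B C : K) (m : K × K × K) (g : K) :
    yH B C (m, g) = ((B * m.2.1 + C * m.2.2, 0, g), 0) := by
  rw [yH, ext1_apply, xm_apply]
  simp

def zhEquiv (A B C : K) : Z1 (xH A B) (yH B C) ≃
    (K × K) × {v : K × K × K × K // lin A B C v = 0} where
  toFun p := ((p.1.1.1.1, p.1.2.1.1), ⟨(p.1.1.1.2.1, p.1.1.1.2.2, p.1.2.1.2.1, p.1.2.1.2.2), by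
    obtain ⟨⟨⟨m, g⟩, ⟨m', g'⟩⟩, h⟩ := p
    simp only [yH_apply, xH_apply, Prod.mk.injEq] at h
    simp only [lin]
    linear_combination h.1.1⟩)
  invFun w := ⟨(((w.1.1, w.2.1.1, w.2.1.2.1), 0), ((w.1.2, w.2.1.2.2.1, w.2.1.2.2.2), 0)), by
    obtain ⟨⟨h, h'⟩, ⟨⟨a, b, c, d⟩, hv⟩⟩ := w
    simp only [lin] at hv
    simp only [yH_apply, xH_apply, Prod.mk.injEq, and_true]
    linear_combination hv⟩
  left_inv := by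
    rintro ⟨⟨⟨⟨a, b, c⟩, g⟩, ⟨⟨a', b', c'⟩, g'⟩⟩, h⟩
    simp only [yH_apply, xH_apply, Prod.mk.injEq] at h
    apply Subtype.ext
    simp only [Prod.mk.injEq, true_and]
    exact ⟨h.1.2.2.symm, h.1.2.1⟩
  right_inv := by
    rintro ⟨⟨h, h'⟩, ⟨⟨a, b, c, d⟩, hv⟩⟩
    rfl

def mzEquiv (A B C h h' v₁ v₂ v₃ v₄ : K) :
    Z1 (ext1 (xH A B) ((h, v₁, v₂), 0)) (ext1 (yH B C) ((h', v₃, v₄), 0)) ≃
    Σ p : K × K, (K × K) × {w : K × K × K × K // lin A B C w = p.2 * h - p.1 * h'} where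
  toFun p := ⟨(p.1.1.2, p.1.2.2), (p.1.1.1.1.1, p.1.2.1.1.1),
    ⟨(p.1.1.1.1.2.1, p.1.1.1.1.2.2, p.1.2.1.1.2.1, p.1.2.1.1.2.2), by
    obtain ⟨⟨⟨⟨m, g⟩, s⟩, ⟨⟨m', g'⟩, s'⟩⟩, hh⟩ := p
    rw [ext1_apply, ext1_apply, xH_apply, yH_apply] at hh
    simp only [Prod.mk_add_mk, Prod.smul_mk, smul_eq_mul, Prod.mk.injEq] at hh
    simp only [lin]
    linear_combination hh.1.1.1⟩⟩
  invFun w := ⟨((((w.2.1.1, w.2.2.1.1, w.2.2.1.2.1), w.1.2 * v₂ - w.1.1 * v₄), w.1.1),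
      (((w.2.1.2, w.2.2.1.2.2.1, w.2.2.1.2.2.2), w.1.1 * v₃ - w.1.2 * v₁), w.1.2)), by
    obtain ⟨⟨s, s'⟩, ⟨k, k'⟩, ⟨⟨a, b, c, d⟩, hv⟩⟩ := w
    simp only [lin] at hv
    rw [ext1_apply, ext1_apply, xH_apply, yH_apply]
    simp only [Prod.mk_add_mk, Prod.smul_mk, smul_eq_mul, Prod.mk.injEq]
    refine ⟨⟨⟨?_, ?_, ?_⟩, ?_⟩, trivial⟩
    · linear_combination hv
    · ring
    · ring
    · ring⟩
  left_inv := by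
    rintro ⟨⟨⟨⟨⟨a, b, c⟩, g⟩, s⟩, ⟨⟨⟨a', b', c'⟩, g'⟩, s'⟩⟩, hh⟩
    rw [ext1_apply, ext1_apply, xH_apply, yH_apply] at hh
    simp only [Prod.mk_add_mk, Prod.smul_mk, smul_eq_mul, Prod.mk.injEq] at hh
    apply Subtype.ext
    simp only [Prod.mk.injEq, true_and, and_true]
    exact ⟨by linear_combination -hh.1.1.2.2, by linear_combination hh.1.1.2.1⟩
  right_inv := by
    rintro ⟨⟨s, s'⟩, ⟨k, k'⟩, ⟨⟨a, b, c, d⟩, hv⟩⟩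
    rfl

def msEquiv (A B C h h' v₁ v₂ v₃ v₄ h₁ a₁ b₁ g₁ s h₂ a₂ b₂ g₂ s' : K) :
    Z1 (ext1 (ext1 (xH A B) ((h, v₁, v₂), 0)) (((h₁, a₁, b₁), g₁), s))
      (ext1 (ext1 (yH B C) ((h', v₃, v₄), 0)) (((h₂, a₂, b₂), g₂), s')) ≃
    Σ c : {p : K × K // p.1 * s' = p.2 * s ∧ p.1 * g₂ = p.2 * g₁}, Σ t : K × K,
      (K × K) × {w : K × K × K × K // lin A B C w =
        t.2 * h - t.1 * h' + c.1.2 * h₁ - c.1.1 * h₂} where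
  toFun p := ⟨⟨(p.1.1.2, p.1.2.2), by
      obtain ⟨⟨⟨⟨⟨m, g⟩, t⟩, c⟩, ⟨⟨⟨m', g'⟩, t'⟩, c'⟩⟩, hh⟩ := p
      rw [ext1_apply, ext1_apply, ext1_apply, ext1_apply, xH_apply, yH_apply] at hh
      simp only [Prod.mk_add_mk, Prod.smul_mk, smul_eq_mul, Prod.mk.injEq] at hh
      exact ⟨by linear_combination hh.1.2, by linear_combination hh.1.1.2⟩⟩,
    (p.1.1.1.2, p.1.2.1.2), (p.1.1.1.1.1.1, p.1.2.1.1.1.1),
    ⟨(p.1.1.1.1.1.2.1, p.1.1.1.1.1.2.2, p.1.2.1.1.1.2.1, p.1.2.1.1.1.2.2), by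
      obtain ⟨⟨⟨⟨⟨m, g⟩, t⟩, c⟩, ⟨⟨⟨m', g'⟩, t'⟩, c'⟩⟩, hh⟩ := p
      rw [ext1_apply, ext1_apply, ext1_apply, ext1_apply, xH_apply, yH_apply] at hh
      simp only [Prod.mk_add_mk, Prod.smul_mk, smul_eq_mul, Prod.mk.injEq] at hh
      simp only [lin]
      linear_combination hh.1.1.1.1⟩⟩
  invFun w := ⟨(((((w.2.2.1.1, w.2.2.2.1.1, w.2.2.2.1.2.1),
        w.2.1.2 * v₂ - w.2.1.1 * v₄ + w.1.1.2 * b₁ - w.1.1.1 * b₂), w.2.1.1), w.1.1.1),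
      ((((w.2.2.1.2, w.2.2.2.1.2.2.1, w.2.2.2.1.2.2.2),
        w.2.1.1 * v₃ - w.2.1.2 * v₁ + w.1.1.1 * a₂ - w.1.1.2 * a₁), w.2.1.2), w.1.1.2)), by
    obtain ⟨⟨⟨c, c'⟩, hc1, hc2⟩, ⟨t, t'⟩, ⟨k, k'⟩, ⟨⟨a, b, c, d⟩, hv⟩⟩ := w
    simp only [lin] at hv
    rw [ext1_apply, ext1_apply, ext1_apply, ext1_apply, xH_apply, yH_apply]
    simp only [Prod.mk_add_mk, Prod.smul_mk, smul_eq_mul, Prod.mk.injEq]
    refine ⟨⟨⟨⟨?_, ?_, ?_⟩, ?_⟩, ?_⟩, trivial⟩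
    · linear_combination hv
    · ring
    · ring
    · linear_combination hc2
    · linear_combination hc1⟩
  left_inv := by
    rintro ⟨⟨⟨⟨⟨⟨a, b, c⟩, g⟩, t⟩, c⟩, ⟨⟨⟨⟨a', b', c'⟩, g'⟩, t'⟩, c'⟩⟩, hh⟩
    rw [ext1_apply, ext1_apply, ext1_apply, ext1_apply, xH_apply, yH_apply] at hh
    simp only [Prod.mk_add_mk, Prod.smul_mk, smul_eq_mul, Prod.mk.injEq] at hh
    apply Subtype.ext
    simp only [Prod.mk.injEq, true_and, and_true]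
    exact ⟨by linear_combination -hh.1.1.1.2.2, by linear_combination hh.1.1.1.2.1⟩
  right_inv := by
    rintro ⟨⟨⟨c, c'⟩, hc1, hc2⟩, ⟨t, t'⟩, ⟨k, k'⟩, ⟨⟨a, b, c, d⟩, hv⟩⟩
    rfl

end

end Pool.Agent.H236R3
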