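import Pool.Agent.H236R3.Eval2

set_option autoImplicit false

open Polynomial

namespace Pool.Agent.H236R3

noncomputable def cst (c : ℚ[X]) : Ob := fun K _ _ _ _ _ _ => c.eval (Nat.card K : ℚ)

noncomputable def subO (Φ Ψ : Ob) : Ob := fun K _ B _ _ x y => Φ K B x y - Ψ K B x y

noncomputable def mulO (Φ Ψ : Ob) : Ob := fun K _ B _ _ x y => Φ K B x y * Ψ K B x y

noncomputable def extO (Φ : Ob) : Ob := fun K _ B _ _ x y =>
  ∑ᶠ p : Z1 x y, Φ K (B × K) (ext1 x p.1.1) (ext1 y p.1.2)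

theorem rep_cst (c : ℚ[X]) : Rep (cst c) := rep_const c
theorem rep_subO {Φ Ψ : Ob} (h1 : Rep Φ) (h2 : Rep Ψ) : Rep (subO Φ Ψ) := rep_sub h1 h2
theorem rep_mulO {Φ Ψ : Ob} (h1 : Rep Φ) (h2 : Rep Ψ) : Rep (mulO Φ Ψ) := rep_mul h1 h2
theorem rep_extO {Φ : Ob} (h : Rep Φ) : Rep (extO Φ) := rep_ext1 h

/-- The number of elements of `Z1`. -/
noncomputable def z1O : Ob := extO (cst 1)

theorem rep_z1O : Rep z1O := rep_extO (rep_cst 1)

theorem z1O_eq (K : Type) [Field K] (B : Type) [AddCommGroup B] [Module K B] [Finite B]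
    (x y : B →ₗ[K] B) : z1O K B x y = (Nat.card (Z1 x y) : ℚ) := by
  have := finite_Z1 x y
  have := Fintype.ofFinite (Z1 x y)
  show (∑ᶠ p : Z1 x y, (1 : ℚ[X]).eval (Nat.card K : ℚ)) = _
  rw [finsum_eq_sum_of_fintype]
  simp

noncomputable def EO : Ob := extO z1O

theorem rep_EO : Rep EO := rep_extO rep_z1O

section

variable {K : Type} [Field K]

theorem card_fib [Finite K] (A B C : K) (hne : ¬ (A = 0 ∧ B = 0 ∧ C = 0)) (β : K) :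
    Nat.card ((K × K) × {w : K × K × K × K // lin A B C w = β}) = Nat.card K ^ 5 := by
  rw [Nat.card_prod, Nat.card_prod, card_lin A B C hne]
  ring

theorem card_Ms [Finite K] (A B C : K) (hne : ¬ (A = 0 ∧ B = 0 ∧ C = 0))
    (h h' v₁ v₂ v₃ v₄ h₁ a₁ b₁ g₁ s h₂ a₂ b₂ g₂ s' : K) :
    Nat.card (Z1 (ext1 (ext1 (xH A B) ((h, v₁, v₂), 0)) (((h₁, a₁, b₁), g₁), s))
      (ext1 (ext1 (yH B C) ((h', v₃, v₄), 0)) (((h₂, a₂, b₂), g₂), s'))) =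
    NN s s' g₁ g₂ * Nat.card K ^ 7 := by
  classical
  have := Fintype.ofFinite K
  rw [Nat.card_congr (msEquiv A B C h h' v₁ v₂ v₃ v₄ h₁ a₁ b₁ g₁ s h₂ a₂ b₂ g₂ s'),
    Nat.card_sigma]
  have h1 : ∀ c : {p : K × K // p.1 * s' = p.2 * s ∧ p.1 * g₂ = p.2 * g₁},
      Nat.card (Σ t : K × K, (K × K) × {w : K × K × K × K // lin A B C w =
        t.2 * h - t.1 * h' + c.1.2 * h₁ - c.1.1 * h₂}) = Nat.card K ^ 7 := by
    intro c
    rw [Nat.card_sigma]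
    simp only [card_fib A B C hne]
    simp only [Finset.sum_const, Finset.card_univ, Fintype.card_prod, smul_eq_mul,
      Nat.card_eq_fintype_card]
    ring
  simp only [h1]
  simp only [Finset.sum_const, Finset.card_univ, smul_eq_mul, NN]
  rw [Nat.card_eq_fintype_card (α := {p : K × K // p.1 * s' = p.2 * s ∧ p.1 * g₂ = p.2 * g₁})]

theorem EO_Mz [Finite K] (A B C : K) (hne : ¬ (A = 0 ∧ B = 0 ∧ C = 0))
    (h h' v₁ v₂ v₃ v₄ : K) :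
    EO K _ (ext1 (xH A B) ((h, v₁, v₂), 0)) (ext1 (yH B C) ((h', v₃, v₄), 0)) =
    (Nat.card K : ℚ) ^ 12 * (2 * (Nat.card K : ℚ) ^ 2 - Nat.card K +
        ((Nat.card K : ℚ) - 1) * Z0 v₃ (v₄ - v₁) (-v₂)) := by
  classical
  have := Fintype.ofFinite K
  show (∑ᶠ p : Z1 (ext1 (xH A B) ((h, v₁, v₂), 0)) (ext1 (yH B C) ((h', v₃, v₄), 0)),
    z1O K _ (ext1 (ext1 (xH A B) ((h, v₁, v₂), 0)) p.1.1)
      (ext1 (ext1 (yH B C) ((h', v₃, v₄), 0)) p.1.2)) = _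
  rw [← finsum_comp_equiv (mzEquiv A B C h h' v₁ v₂ v₃ v₄).symm]
  have key : ∀ w : (Σ p : K × K, (K × K) × {w : K × K × K × K // lin A B C w =
      p.2 * h - p.1 * h'}),
      z1O K _ (ext1 (ext1 (xH A B) ((h, v₁, v₂), 0))
        ((mzEquiv A B C h h' v₁ v₂ v₃ v₄).symm w).1.1)
      (ext1 (ext1 (yH B C) ((h', v₃, v₄), 0))
        ((mzEquiv A B C h h' v₁ v₂ v₃ v₄).symm w).1.2) =
      (NN w.1.1 w.1.2 (w.1.2 * v₂ - w.1.1 * v₄) (w.1.1 * v₃ - w.1.2 * v₁) : ℚ) *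
        (Nat.card K : ℚ) ^ 7 := by
    rintro ⟨⟨s, s'⟩, ⟨k, k'⟩, ⟨⟨a, b, c, d⟩, hv⟩⟩
    rw [z1O_eq]
    have := card_Ms A B C hne h h' v₁ v₂ v₃ v₄ k a b (s' * v₂ - s * v₄) s k' c d
      (s * v₃ - s' * v₁) s'
    exact_mod_cast this
  rw [finsum_congr key, finsum_eq_sum_of_fintype, Fintype.sum_sigma]
  have h2 : ∀ p : K × K, (∑ _w : (K × K) × {w : K × K × K × K // lin A B C w =
      p.2 * h - p.1 * h'},
      (NN p.1 p.2 (p.2 * v₂ - p.1 * v₄) (p.1 * v₃ - p.2 * v₁) : ℚ) * (Nat.card K : ℚ) ^ 7) =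
      (Nat.card K : ℚ) ^ 12 * (NN p.1 p.2 (p.2 * v₂ - p.1 * v₄) (p.1 * v₃ - p.2 * v₁) : ℚ) := by
    intro p
    rw [Finset.sum_const, Finset.card_univ, nsmul_eq_mul, ← Nat.card_eq_fintype_card,
      card_fib A B C hne]
    push_cast
    ring
  rw [Finset.sum_congr rfl fun p _ => h2 p, ← Finset.mul_sum, sum_NN]

end

end Pool.Agent.H236R3
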