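import Pool.Agent.H236R3.Eval3

set_option autoImplicit false

open Polynomial

namespace Pool.Agent.H236R3

section

variable {K : Type} [Field K]

theorem card_lin2 [Finite K] (α γ : K) (h : ¬ (α = 0 ∧ γ = 0)) :
    Nat.card {p : K × K // α * p.1 + γ * p.2 = 0} = Nat.card K := by
  apply Nat.card_congr
  by_cases hα : α = 0
  · have hγ : γ ≠ 0 := fun h' => h ⟨hα, h'⟩
    exact
      { toFun := fun p => p.1.1
        invFun := fun t => ⟨(t, 0), by rw [hα]; ring⟩
        left_inv := by
          rintro ⟨⟨a, b⟩, hab⟩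
          apply Subtype.ext
          simp only [hα, zero_mul, zero_add, mul_eq_zero, hγ, false_or] at hab
          simp [hab]
        right_inv := fun t => rfl }
  · exact
      { toFun := fun p => p.1.2
        invFun := fun t => ⟨(-γ * t / α, t), by field_simp; ring⟩
        left_inv := by
          rintro ⟨⟨a, b⟩, hab⟩
          apply Subtype.ext
          simp only at hab
          simp only [Prod.mk.injEq, and_true]
          field_simp
          linear_combination -hab
        right_inv := fun t => rfl }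

theorem card_uv [Finite K] : Nat.card {p : K × K // p.1 * p.2 = 0} + 1 = 2 * Nat.card K := by
  classical
  have := Fintype.ofFinite K
  have e : {p : K × K // p.1 * p.2 = 0} ≃ Σ u : K, {t : K // t * u = 0} :=
    { toFun := fun p => ⟨p.1.2, ⟨p.1.1, p.2⟩⟩
      invFun := fun w => ⟨(w.2.1, w.1), w.2.2⟩
      left_inv := fun p => rfl
      right_inv := fun w => rfl }
  rw [Nat.card_congr e, Nat.card_sigma]
  simp only [card_mul_zero]
  rw [← Finset.add_sum_erase Finset.univ _ (Finset.mem_univ (0 : K))]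
  rw [Finset.sum_congr rfl (g := fun _ => 1) (fun x hx => by
    rw [if_neg (Finset.ne_of_mem_erase hx)])]
  rw [if_pos rfl, Finset.sum_const, Finset.card_erase_of_mem (Finset.mem_univ _),
    Finset.card_univ, smul_eq_mul, mul_one, Nat.card_eq_fintype_card]
  have : 0 < Fintype.card K := Fintype.card_pos
  omega

theorem card_two_lines [Finite K] (α β γ δ : K) (h : α * δ - β * γ ≠ 0) :
    Nat.card {p : K × K // (α * p.1 + β * p.2) * (γ * p.1 + δ * p.2) = 0} + 1 =
      2 * Nat.card K := by
  rw [← card_uv (K := K)]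
  congr 1
  apply Nat.card_congr
  exact
    { toFun := fun p => ⟨(α * p.1.1 + β * p.1.2, γ * p.1.1 + δ * p.1.2), p.2⟩
      invFun := fun w => ⟨((δ * w.1.1 - β * w.1.2) / (α * δ - β * γ),
        (-γ * w.1.1 + α * w.1.2) / (α * δ - β * γ)), by
          have h1 : α * ((δ * w.1.1 - β * w.1.2) / (α * δ - β * γ)) +
              β * ((-γ * w.1.1 + α * w.1.2) / (α * δ - β * γ)) = w.1.1 := by
            rw [mul_div_assoc', mul_div_assoc', ← add_div, div_eq_iff h]
            ring
          have h2 : γ * ((δ * w.1.1 - β * w.1.2) / (α * δ - β * γ)) +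
              δ * ((-γ * w.1.1 + α * w.1.2) / (α * δ - β * γ)) = w.1.2 := by
            rw [mul_div_assoc', mul_div_assoc', ← add_div, div_eq_iff h]
            ring
          simp only
          rw [h1, h2]
          exact w.2⟩
      left_inv := by
        rintro ⟨⟨a, b⟩, hab⟩
        apply Subtype.ext
        simp only [Prod.mk.injEq]
        constructor
        · rw [div_eq_iff h]
          ring
        · rw [div_eq_iff h]
          ring
      right_inv := by
        rintro ⟨⟨a, b⟩, hab⟩
        apply Subtype.ext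
        simp only [Prod.mk.injEq]
        constructor
        · rw [mul_div_assoc', mul_div_assoc', ← add_div, div_eq_iff h]
          ring
        · rw [mul_div_assoc', mul_div_assoc', ← add_div, div_eq_iff h]
          ring }

theorem Z0_zero [Finite K] : Z0 (0 : K) 0 0 = Nat.card K ^ 2 := by
  have : Z0 (0 : K) 0 0 = Nat.card (K × K) := by
    apply Nat.card_congr
    exact
      { toFun := fun p => p.1
        invFun := fun p => ⟨p, by ring⟩
        left_inv := fun p => rfl
        right_inv := fun p => rfl }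
  rw [this, Nat.card_prod]
  ring

theorem Z0_sq [Finite K] [CharP K 2] (a c : K) (h : ¬ (a = 0 ∧ c = 0)) :
    Z0 a 0 c = Nat.card K := by
  have h2 : ringChar K = 2 := ringChar.eq K 2
  obtain ⟨α, hα⟩ := FiniteField.isSquare_of_char_two h2 a
  obtain ⟨γ, hγ⟩ := FiniteField.isSquare_of_char_two h2 c
  have hne : ¬ (α = 0 ∧ γ = 0) := by
    rintro ⟨rfl, rfl⟩
    exact h ⟨by simpa using hα, by simpa using hγ⟩
  rw [← card_lin2 α γ hne]
  have h20 : (2 : K) = 0 := CharP.cast_eq_zero K 2
  apply Nat.card_congr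
  apply Equiv.subtypeEquivRight
  rintro ⟨s, s'⟩
  have : a * s ^ 2 + 0 * (s * s') + c * s' ^ 2 = (α * s + γ * s') ^ 2 := by
    rw [hα, hγ]
    linear_combination (-(α * γ * s * s')) * h20
  rw [this]
  exact pow_eq_zero_iff (two_ne_zero)

theorem Z0_nd [Finite K] [CharP K 2] (a b c : K) (hb : b ≠ 0) :
    Z0 a b c = 1 ∨ Z0 a b c + 1 = 2 * Nat.card K := by
  have h20 : (2 : K) = 0 := CharP.cast_eq_zero K 2
  by_cases ha : a = 0
  · right
    rw [← card_two_lines (0 : K) 1 b c (by simpa using hb)]
    congr 1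
    apply Nat.card_congr
    apply Equiv.subtypeEquivRight
    rintro ⟨s, s'⟩
    have : a * s ^ 2 + b * (s * s') + c * s' ^ 2 = (0 * s + 1 * s') * (b * s + c * s') := by
      rw [ha]
      ring
    rw [this]
  · by_cases hz : ∃ r : K, a * r ^ 2 + b * r + c = 0
    · right
      obtain ⟨r, hr⟩ := hz
      have hdet : (1 : K) * (a * r + b) - (-r) * a ≠ 0 := by
        have : (1 : K) * (a * r + b) - (-r) * a = b := by linear_combination (a * r) * h20
        rw [this]
        exact hb
      rw [← card_two_lines (1 : K) (-r) a (a * r + b) hdet]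
      congr 1
      apply Nat.card_congr
      apply Equiv.subtypeEquivRight
      rintro ⟨s, s'⟩
      have : a * s ^ 2 + b * (s * s') + c * s' ^ 2 =
          (1 * s + (-r) * s') * (a * s + (a * r + b) * s') := by
        linear_combination (s' ^ 2) * hr
      rw [this]
    · left
      rw [Z0, Nat.card_eq_one_iff_unique]
      have hu : ∀ p : {p : K × K // a * p.1 ^ 2 + b * (p.1 * p.2) + c * p.2 ^ 2 = 0},
          p.1 = (0, 0) := by
        rintro ⟨⟨s, s'⟩, hp⟩
        simp only at hp
        have hs' : s' = 0 := by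
          by_contra hs'
          apply hz
          refine ⟨s / s', ?_⟩
          field_simp
          linear_combination hp
        subst hs'
        have hs : s = 0 := by
          have : a * s ^ 2 = 0 := by linear_combination hp
          rcases mul_eq_zero.1 this with h | h
          · exact absurd h ha
          · exact (pow_eq_zero_iff two_ne_zero).1 h
        exact Prod.ext hs rfl
      exact ⟨⟨fun p r => Subtype.ext ((hu p).trans (hu r).symm)⟩, ⟨⟨(0, 0), by ring⟩⟩⟩

end

noncomputable def kap : ℚ[X] := X ^ 12 * (X - 1)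
noncomputable def e0 : ℚ[X] := X ^ 12 * (2 * X ^ 2 - X)
noncomputable def valp : ℚ[X] := kap ^ 3 * ((X - 1) * (X - (2 * X - 1)) * (X - X ^ 2))
noncomputable def c1 : ℚ[X] := valp * (X ^ 3 * (X - 1))
noncomputable def c2 : ℚ[X] := valp * (X ^ 3 * (X ^ 2 - 1))

noncomputable def fO : Ob :=
  mulO (mulO (subO EO (cst (e0 + kap))) (subO EO (cst (e0 + kap * (2 * X - 1)))))
    (subO EO (cst (e0 + kap * X ^ 2)))

noncomputable def AO : Ob := extO fO

noncomputable def GO : Ob :=
  mulO (mulO (subO z1O (cst (X ^ 6))) (subO z1O (cst (X ^ 7)))) (subO z1O (cst (X ^ 8)))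

noncomputable def tO : Ob := mulO GO (mulO (subO AO (cst c1)) (subO AO (cst c2)))

noncomputable def termO : Ob := mulO tO tO

noncomputable def FO : Ob := extO termO

theorem rep_fO : Rep fO :=
  rep_mulO (rep_mulO (rep_subO rep_EO (rep_cst _)) (rep_subO rep_EO (rep_cst _)))
    (rep_subO rep_EO (rep_cst _))

theorem rep_AO : Rep AO := rep_extO rep_fO

theorem rep_GO : Rep GO :=
  rep_mulO (rep_mulO (rep_subO rep_z1O (rep_cst _)) (rep_subO rep_z1O (rep_cst _)))
    (rep_subO rep_z1O (rep_cst _))

theorem rep_tO : Rep tO :=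
  rep_mulO rep_GO (rep_mulO (rep_subO rep_AO (rep_cst _)) (rep_subO rep_AO (rep_cst _)))

theorem rep_termO : Rep termO := rep_mulO rep_tO rep_tO

theorem rep_FO : Rep FO := rep_extO rep_termO

theorem rep_iso {Φ : Ob} (hΦ : Rep Φ) {K : Type} [Field K] [Finite K] {B B' : Type}
    [AddCommGroup B] [Module K B] [Finite B] [AddCommGroup B'] [Module K B'] [Finite B']
    (θ : B ≃ₗ[K] B') (x y : B →ₗ[K] B) (x' y' : B' →ₗ[K] B')
    (hx : ∀ b, θ (x b) = x' (θ b)) (hy : ∀ b, θ (y b) = y' (θ b)) :
    Φ K B x y = Φ K B' x' y' := by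
  obtain ⟨L, h⟩ := hΦ
  rw [h, h]
  unfold lsum
  congr 1
  apply List.map_congr_left
  intro p _
  rw [S_iso p.2 θ x y x' y' hx hy]

section

variable {K : Type} [Field K]

theorem fO_Mz [Finite K] (A B C : K) (hne : ¬ (A = 0 ∧ B = 0 ∧ C = 0))
    (h h' v₁ v₂ v₃ v₄ : K) :
    fO K _ (ext1 (xH A B) ((h, v₁, v₂), 0)) (ext1 (yH B C) ((h', v₃, v₄), 0)) =
    ((Nat.card K : ℚ) ^ 12 * ((Nat.card K : ℚ) - 1)) ^ 3 *
      (((Z0 v₃ (v₄ - v₁) (-v₂) : ℚ) - 1) * ((Z0 v₃ (v₄ - v₁) (-v₂) : ℚ) - (2 * Nat.card K - 1)) *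
        ((Z0 v₃ (v₄ - v₁) (-v₂) : ℚ) - (Nat.card K : ℚ) ^ 2)) := by
  simp only [fO, mulO, subO, cst]
  rw [EO_Mz A B C hne]
  simp only [e0, kap, eval_add, eval_mul, eval_pow, eval_X, eval_sub, eval_one, eval_ofNat]
  ring

theorem z1O_H [Finite K] (A B C : K) (hne : ¬ (A = 0 ∧ B = 0 ∧ C = 0)) :
    z1O K _ (xH A B) (yH B C) = (Nat.card K : ℚ) ^ 5 := by
  rw [z1O_eq, Nat.card_congr (zhEquiv A B C), card_fib A B C hne]
  push_cast
  ring

theorem z1O_H0 [Finite K] : z1O K _ (xH (0 : K) 0) (yH 0 0) = (Nat.card K : ℚ) ^ 6 := by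
  have : Nat.card {v : K × K × K × K // lin (0 : K) 0 0 v = 0} =
      Nat.card (K × K × K × K) := by
    apply Nat.card_congr
    exact
      { toFun := fun p => p.1
        invFun := fun p => ⟨p, by simp [lin]⟩
        left_inv := fun p => rfl
        right_inv := fun p => rfl }
  rw [z1O_eq, Nat.card_congr (zhEquiv 0 0 0), Nat.card_prod, this]
  simp only [Nat.card_prod]
  push_cast
  ring

end

end Pool.Agent.H236R3
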