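import Pool.Agent.H236R3.Eval4

set_option autoImplicit false

open Polynomial

namespace Pool.Agent.H236R3

section

variable {K : Type} [Field K]

theorem card_punct [Finite K] (A C : K) :
    Nat.card {p : K × K // C * p.1 = A * p.2 ∧ ¬ (p.2 = 0 ∧ p.1 = 0)} + 1 =
      Nat.card {p : K × K // C * p.1 + (-A) * p.2 = 0} := by
  classical
  have := Fintype.ofFinite K
  rw [Nat.card_eq_fintype_card, Nat.card_eq_fintype_card, Fintype.card_subtype,
    Fintype.card_subtype]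
  have : (Finset.univ.filter fun p : K × K => C * p.1 + (-A) * p.2 = 0) =
      insert (0, 0) (Finset.univ.filter fun p : K × K =>
        C * p.1 = A * p.2 ∧ ¬ (p.2 = 0 ∧ p.1 = 0)) := by
    ext ⟨a, b⟩
    simp only [Finset.mem_filter, Finset.mem_univ, true_and, Finset.mem_insert, Prod.mk.injEq]
    constructor
    · intro h
      by_cases h0 : b = 0 ∧ a = 0
      · left
        exact ⟨h0.2, h0.1⟩
      · right
        exact ⟨by linear_combination h, h0⟩
    · rintro (⟨rfl, rfl⟩ | ⟨h, _⟩)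
      · ring
      · linear_combination h
  rw [this, Finset.card_insert_of_notMem]
  simp

theorem card_punct_cases [Finite K] (A C : K) :
    Nat.card {p : K × K // C * p.1 = A * p.2 ∧ ¬ (p.2 = 0 ∧ p.1 = 0)} + 1 = Nat.card K ∨
    Nat.card {p : K × K // C * p.1 = A * p.2 ∧ ¬ (p.2 = 0 ∧ p.1 = 0)} + 1 = Nat.card K ^ 2 := by
  rw [card_punct]
  by_cases h : C = 0 ∧ -A = 0
  · right
    rw [h.1, h.2]
    have : Nat.card {p : K × K // (0 : K) * p.1 + 0 * p.2 = 0} = Nat.card (K × K) := by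
      apply Nat.card_congr
      exact
        { toFun := fun p => p.1
          invFun := fun p => ⟨p, by ring⟩
          left_inv := fun p => rfl
          right_inv := fun p => rfl }
    rw [this, Nat.card_prod]
    ring
  · left
    exact card_lin2 C (-A) h

def pEquiv (A B C : K) :
    {w : (K × K) × {v : K × K × K × K // lin A B C v = 0} //
      w.2.1.2.2.2 = w.2.1.1 ∧ ¬ (w.2.1.2.2.1 = 0 ∧ w.2.1.2.1 = 0)} ≃
    (K × K × K) × {p : K × K // C * p.1 = A * p.2 ∧ ¬ (p.2 = 0 ∧ p.1 = 0)} where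
  toFun w := ((w.1.1.1, w.1.1.2, w.1.2.1.1), ⟨(w.1.2.1.2.1, w.1.2.1.2.2.1), by
    obtain ⟨⟨⟨h, h'⟩, ⟨⟨a, b, c, d⟩, hv⟩⟩, hw, hw'⟩ := w
    simp only at hw hw'
    simp only [lin] at hv
    subst hw
    exact ⟨by linear_combination hv, hw'⟩⟩)
  invFun u := ⟨((u.1.1, u.1.2.1), ⟨(u.1.2.2, u.2.1.1, u.2.1.2, u.1.2.2), by
    obtain ⟨⟨h, h', a⟩, ⟨⟨b, c⟩, hp, hp'⟩⟩ := u
    simp only [lin]
    simp only at hp
    linear_combination hp⟩), rfl, u.2.2.2⟩
  left_inv := by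
    rintro ⟨⟨⟨h, h'⟩, ⟨⟨a, b, c, d⟩, hv⟩⟩, hw, hw'⟩
    simp only at hw
    subst hw
    rfl
  right_inv := by
    rintro ⟨⟨h, h', a⟩, ⟨⟨b, c⟩, hp, hp'⟩⟩
    rfl

theorem AO_char2 [Finite K] [CharP K 2] (A B C : K) (hne : ¬ (A = 0 ∧ B = 0 ∧ C = 0)) :
    AO K _ (xH A B) (yH B C) = c1.eval (Nat.card K : ℚ) ∨
    AO K _ (xH A B) (yH B C) = c2.eval (Nat.card K : ℚ) := by
  classical
  have := Fintype.ofFinite K
  have hval : valp.eval (Nat.card K : ℚ) = ((Nat.card K : ℚ) ^ 12 * ((Nat.card K : ℚ) - 1)) ^ 3 *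
      (((Nat.card K : ℚ) - 1) * ((Nat.card K : ℚ) - (2 * Nat.card K - 1)) *
        ((Nat.card K : ℚ) - (Nat.card K : ℚ) ^ 2)) := by
    simp only [valp, kap, eval_mul, eval_pow, eval_X, eval_sub, eval_one, eval_ofNat]
  have hAO : AO K _ (xH A B) (yH B C) = valp.eval (Nat.card K : ℚ) *
      ((Nat.card K : ℚ) ^ 3 *
        Nat.card {p : K × K // C * p.1 = A * p.2 ∧ ¬ (p.2 = 0 ∧ p.1 = 0)}) := by
    show (∑ᶠ p : Z1 (xH A B) (yH B C),
      fO K _ (ext1 (xH A B) p.1.1) (ext1 (yH B C) p.1.2)) = _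
    rw [← finsum_comp_equiv (zhEquiv A B C).symm]
    have key : ∀ w : (K × K) × {v : K × K × K × K // lin A B C v = 0},
        fO K _ (ext1 (xH A B) ((zhEquiv A B C).symm w).1.1)
          (ext1 (yH B C) ((zhEquiv A B C).symm w).1.2) =
        if w.2.1.2.2.2 = w.2.1.1 ∧ ¬ (w.2.1.2.2.1 = 0 ∧ w.2.1.2.1 = 0) then
          valp.eval (Nat.card K : ℚ) else 0 := by
      rintro ⟨⟨h, h'⟩, ⟨⟨a, b, c, d⟩, hv⟩⟩
      refine (fO_Mz A B C hne h h' a b c d).trans ?_
      simp only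
      by_cases hd : d = a
      · subst hd
        rw [sub_self]
        by_cases hcb : c = 0 ∧ b = 0
        · rw [if_neg (fun hh => hh.2 hcb), hcb.1, hcb.2, neg_zero, Z0_zero]
          push_cast
          ring
        · rw [if_pos ⟨rfl, hcb⟩, Z0_sq c (-b) (by simpa using hcb), hval]
      · rw [if_neg (fun hh => hd hh.1)]
        rcases Z0_nd c (d - a) (-b) (sub_ne_zero.2 hd) with h1 | h1
        · rw [h1]
          push_cast
          ring
        · have h2 : (Z0 c (d - a) (-b) : ℚ) + 1 = 2 * Nat.card K := by exact_mod_cast h1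
          have h3 : (Z0 c (d - a) (-b) : ℚ) = 2 * Nat.card K - 1 := by linarith
          rw [h3]
          ring
    rw [finsum_congr key, finsum_eq_sum_of_fintype, ← Finset.sum_filter, Finset.sum_const,
      ← Fintype.card_subtype, ← Nat.card_eq_fintype_card, Nat.card_congr (pEquiv A B C),
      nsmul_eq_mul]
    simp only [Nat.card_prod]
    push_cast
    ring
  rcases card_punct_cases A C with h | h
  · left
    have h2 : (Nat.card {p : K × K // C * p.1 = A * p.2 ∧ ¬ (p.2 = 0 ∧ p.1 = 0)} : ℚ) =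
        (Nat.card K : ℚ) - 1 := by
      have : (Nat.card {p : K × K // C * p.1 = A * p.2 ∧ ¬ (p.2 = 0 ∧ p.1 = 0)} : ℚ) + 1 =
        (Nat.card K : ℚ) := by exact_mod_cast h
      linarith
    rw [hAO, h2]
    simp only [c1, eval_mul, eval_pow, eval_X, eval_sub, eval_one]
  · right
    have h2 : (Nat.card {p : K × K // C * p.1 = A * p.2 ∧ ¬ (p.2 = 0 ∧ p.1 = 0)} : ℚ) =
        (Nat.card K : ℚ) ^ 2 - 1 := by
      have : (Nat.card {p : K × K // C * p.1 = A * p.2 ∧ ¬ (p.2 = 0 ∧ p.1 = 0)} : ℚ) + 1 =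
        (Nat.card K : ℚ) ^ 2 := by exact_mod_cast h
      linarith
    rw [hAO, h2]
    simp only [c2, eval_mul, eval_pow, eval_X, eval_sub, eval_one]

theorem GO_zero {B : Type} [Finite K] [AddCommGroup B] [Module K B] (x y : B →ₗ[K] B) (k : ℕ)
    (hk : k = 6 ∨ k = 7 ∨ k = 8) (h : z1O K B x y = (Nat.card K : ℚ) ^ k) : GO K B x y = 0 := by
  simp only [GO, mulO, subO, cst, h, eval_pow, eval_X]
  rcases hk with rfl | rfl | rfl <;> ring

theorem tO_H_char2 [Finite K] [CharP K 2] (A B C : K) :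
    tO K _ (xH A B) (yH B C) = 0 := by
  by_cases hne : A = 0 ∧ B = 0 ∧ C = 0
  · obtain ⟨rfl, rfl, rfl⟩ := hne
    have := GO_zero _ _ 6 (Or.inl rfl) (z1O_H0 (K := K))
    simp only [tO, mulO] at this ⊢
    rw [this, zero_mul]
  · rcases AO_char2 A B C hne with h | h
    · simp only [tO, mulO, subO, cst] at h ⊢
      rw [h]
      ring
    · simp only [tO, mulO, subO, cst] at h ⊢
      rw [h]
      ring

/-- The change of basis. -/
def thH (rh r₁ r₂ rh' r₁' r₂' : K) (hD : r₁ * r₂' - r₂ * r₁' ≠ 0) :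
    ((K × K × K) × K) ≃ₗ[K] ((K × K × K) × K) where
  toFun u := ((u.1.1 + u.1.2.1 * rh + u.1.2.2 * rh', u.1.2.1 * r₁ + u.1.2.2 * r₁',
    u.1.2.1 * r₂ + u.1.2.2 * r₂'), u.2)
  invFun u := ((u.1.1 - (r₂' * u.1.2.1 - r₁' * u.1.2.2) / (r₁ * r₂' - r₂ * r₁') * rh -
      (-r₂ * u.1.2.1 + r₁ * u.1.2.2) / (r₁ * r₂' - r₂ * r₁') * rh',
    (r₂' * u.1.2.1 - r₁' * u.1.2.2) / (r₁ * r₂' - r₂ * r₁'),
    (-r₂ * u.1.2.1 + r₁ * u.1.2.2) / (r₁ * r₂' - r₂ * r₁')), u.2)
  map_add' u v := by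
    simp only [Prod.fst_add, Prod.snd_add, Prod.mk_add_mk, Prod.mk.injEq, and_true]
    refine ⟨by ring, by ring, by ring⟩
  map_smul' c v := by
    simp only [Prod.smul_fst, Prod.smul_snd, Prod.smul_mk, smul_eq_mul, RingHom.id_apply,
      Prod.mk.injEq, and_true]
    refine ⟨by ring, by ring, by ring⟩
  left_inv := by
    rintro ⟨⟨h, a, b⟩, g⟩
    have h1 : (r₂' * (a * r₁ + b * r₁') - r₁' * (a * r₂ + b * r₂')) / (r₁ * r₂' - r₂ * r₁') = a := by
      rw [div_eq_iff hD]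
      ring
    have h2 : (-r₂ * (a * r₁ + b * r₁') + r₁ * (a * r₂ + b * r₂')) / (r₁ * r₂' - r₂ * r₁') = b := by
      rw [div_eq_iff hD]
      ring
    simp only [h1, h2, Prod.mk.injEq, and_true]
    ring
  right_inv := by
    rintro ⟨⟨h, a, b⟩, g⟩
    simp only [Prod.mk.injEq, and_true]
    refine ⟨by ring, ?_, ?_⟩
    · rw [div_mul_eq_mul_div, div_mul_eq_mul_div, ← add_div, div_eq_iff hD]
      ring
    · rw [div_mul_eq_mul_div, div_mul_eq_mul_div, ← add_div, div_eq_iff hD]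
      ring

end

end Pool.Agent.H236R3
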