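import Pool.Agent.H236R3.Eval5

set_option autoImplicit false

open Polynomial

namespace Pool.Agent.H236R3

section

variable {K : Type} [Field K]

theorem exists_lam (r₁ r₂ r₁' r₂' : K) (hD : r₁ * r₂' - r₂ * r₁' = 0) :
    ∃ l₁ l₂ : K, ¬ (l₁ = 0 ∧ l₂ = 0) ∧ l₁ * r₁ + l₂ * r₂ = 0 ∧ l₁ * r₁' + l₂ * r₂' = 0 := by
  by_cases h : r₁ = 0 ∧ r₂ = 0
  · by_cases h' : r₁' = 0 ∧ r₂' = 0
    · refine ⟨1, 0, by simp, ?_, ?_⟩
      · rw [h.1]
        ring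
      · rw [h'.1]
        ring
    · refine ⟨r₂', -r₁', ?_, ?_, by ring⟩
      · rintro ⟨h1, h2⟩
        exact h' ⟨neg_eq_zero.1 h2, h1⟩
      · rw [h.1, h.2]
        ring
  · refine ⟨r₂, -r₁, ?_, by ring, by linear_combination -hD⟩
    rintro ⟨h1, h2⟩
    exact h ⟨neg_eq_zero.1 h2, h1⟩

def lamMap (l₁ l₂ : K) : ((K × K × K) × K) →ₗ[K] (K × K) where
  toFun u := (u.2, l₁ * u.1.2.1 + l₂ * u.1.2.2)
  map_add' u v := by
    simp only [Prod.fst_add, Prod.snd_add, Prod.mk_add_mk, Prod.mk.injEq, true_and]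
    ring
  map_smul' c v := by
    simp only [Prod.smul_fst, Prod.smul_snd, Prod.smul_mk, smul_eq_mul, RingHom.id_apply,
      Prod.mk.injEq, true_and]
    ring

theorem finrank_ker_lam (l₁ l₂ : K) (h : ¬ (l₁ = 0 ∧ l₂ = 0)) :
    Module.finrank K (LinearMap.ker (lamMap l₁ l₂)) = 2 := by
  have hs : LinearMap.range (lamMap l₁ l₂) = ⊤ := by
    rw [LinearMap.range_eq_top]
    rintro ⟨a, b⟩
    by_cases h1 : l₁ = 0
    · have h2 : l₂ ≠ 0 := fun h2 => h ⟨h1, h2⟩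
      refine ⟨((0, 0, b / l₂), a), ?_⟩
      show (a, l₁ * 0 + l₂ * (b / l₂)) = (a, b)
      rw [mul_div_cancel₀ _ h2]
      simp
    · refine ⟨((0, b / l₁, 0), a), ?_⟩
      show (a, l₁ * (b / l₁) + l₂ * 0) = (a, b)
      rw [mul_div_cancel₀ _ h1]
      simp
  have h1 := LinearMap.finrank_range_add_finrank_ker (lamMap l₁ l₂)
  rw [hs, finrank_top] at h1
  simp only [Module.finrank_prod, Module.finrank_self] at h1
  omega

theorem z1O_degenerate [Finite K] (X₁ X₂ Y₁ Y₂ rh r₁ r₂ rh' r₁' r₂' : K)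
    (hD : r₁ * r₂' - r₂ * r₁' = 0) :
    ∃ k : ℕ, (k = 6 ∨ k = 7 ∨ k = 8) ∧
      z1O K _ (ext1 (xm X₁ X₂) (rh, r₁, r₂)) (ext1 (xm Y₁ Y₂) (rh', r₁', r₂')) =
        (Nat.card K : ℚ) ^ k := by
  obtain ⟨l₁, l₂, hl, h1, h2⟩ := exists_lam r₁ r₂ r₁' r₂' hD
  let x := ext1 (xm X₁ X₂) (rh, r₁, r₂)
  let y := ext1 (xm Y₁ Y₂) (rh', r₁', r₂')
  let δ : (((K × K × K) × K) × ((K × K × K) × K)) →ₗ[K] ((K × K × K) × K) :=
    y.comp (LinearMap.fst K _ _) - x.comp (LinearMap.snd K _ _)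
  have hker : Nat.card (Z1 x y) = Nat.card (LinearMap.ker δ) := by
    apply Nat.card_congr
    apply Equiv.subtypeEquivRight
    intro p
    rw [LinearMap.mem_ker]
    show _ ↔ y p.1 - x p.2 = 0
    exact sub_eq_zero.symm
  have hr : LinearMap.range δ ≤ LinearMap.ker (lamMap l₁ l₂) := by
    rintro _ ⟨⟨⟨⟨a, b, c⟩, g⟩, ⟨⟨a', b', c'⟩, g'⟩⟩, rfl⟩
    rw [LinearMap.mem_ker]
    have : δ (((a, b, c), g), ((a', b', c'), g')) =
        ext1 (xm Y₁ Y₂) (rh', r₁', r₂') ((a, b, c), g) -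
          ext1 (xm X₁ X₂) (rh, r₁, r₂) ((a', b', c'), g') := rfl
    rw [this, ext1_apply, ext1_apply, xm_apply, xm_apply]
    simp only [Prod.mk_add_mk, Prod.smul_mk, smul_eq_mul, Prod.mk_sub_mk]
    simp only [lamMap, LinearMap.coe_mk, AddHom.coe_mk, sub_self]
    rw [Prod.mk_eq_zero]
    refine ⟨rfl, ?_⟩
    linear_combination g * h2 - g' * h1
  have hf := LinearMap.finrank_range_add_finrank_ker δ
  have hle := Submodule.finrank_mono hr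
  rw [finrank_ker_lam l₁ l₂ hl] at hle
  simp only [Module.finrank_prod, Module.finrank_self] at hf
  refine ⟨Module.finrank K (LinearMap.ker δ), by omega, ?_⟩
  rw [z1O_eq]
  show (Nat.card (Z1 x y) : ℚ) = _
  rw [hker, Module.natCard_eq_pow_finrank (K := K)]
  push_cast
  rfl

theorem tO_char2 [Finite K] [CharP K 2] (X₁ X₂ Y₁ Y₂ : K)
    (p : Z1 (xm X₁ X₂) (xm Y₁ Y₂)) :
    tO K _ (ext1 (xm X₁ X₂) p.1.1) (ext1 (xm Y₁ Y₂) p.1.2) = 0 := by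
  obtain ⟨⟨⟨rh, r₁, r₂⟩, ⟨rh', r₁', r₂'⟩⟩, hp⟩ := p
  simp only [xm_apply, Prod.mk.injEq, and_true] at hp
  simp only
  by_cases hD : r₁ * r₂' - r₂ * r₁' = 0
  · obtain ⟨k, hk, h⟩ := z1O_degenerate X₁ X₂ Y₁ Y₂ rh r₁ r₂ rh' r₁' r₂' hD
    have := GO_zero _ _ k hk h
    simp only [tO, mulO] at this ⊢
    rw [this, zero_mul]
  · rw [← tO_H_char2 (X₁ * r₁ + X₂ * r₂) (X₁ * r₁' + X₂ * r₂') (Y₁ * r₁' + Y₂ * r₂')]
    symm
    apply rep_iso rep_tO (thH rh r₁ r₂ rh' r₁' r₂' hD)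
    · rintro ⟨⟨h, a, b⟩, g⟩
      rw [xH_apply]
      show thH rh r₁ r₂ rh' r₁' r₂' hD _ = ext1 (xm X₁ X₂) (rh, r₁, r₂)
        ((h + a * rh + b * rh', a * r₁ + b * r₁', a * r₂ + b * r₂'), g)
      rw [ext1_apply, xm_apply]
      simp only [thH, LinearEquiv.coe_mk, LinearMap.coe_mk, AddHom.coe_mk, Prod.mk_add_mk,
        Prod.smul_mk, smul_eq_mul, Prod.mk.injEq, and_true]
      refine ⟨by ring, by ring, by ring⟩
    · rintro ⟨⟨h, a, b⟩, g⟩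
      rw [yH_apply]
      show thH rh r₁ r₂ rh' r₁' r₂' hD _ = ext1 (xm Y₁ Y₂) (rh', r₁', r₂')
        ((h + a * rh + b * rh', a * r₁ + b * r₁', a * r₂ + b * r₂'), g)
      rw [ext1_apply, xm_apply]
      simp only [thH, LinearEquiv.coe_mk, LinearMap.coe_mk, AddHom.coe_mk, Prod.mk_add_mk,
        Prod.smul_mk, smul_eq_mul, Prod.mk.injEq, and_true]
      refine ⟨by linear_combination (-a) * hp, by ring, by ring⟩

theorem total_char2 [Finite K] [CharP K 2] :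
    (∑ᶠ c : K × K × K × K, FO K (K × K × K) (xm c.1 c.2.1) (xm c.2.2.1 c.2.2.2)) = 0 := by
  rw [← finsum_zero (α := K × K × K × K)]
  refine finsum_congr fun c => ?_
  show (∑ᶠ p : Z1 (xm c.1 c.2.1) (xm c.2.2.1 c.2.2.2),
    tO K _ (ext1 (xm c.1 c.2.1) p.1.1) (ext1 (xm c.2.2.1 c.2.2.2) p.1.2) *
      tO K _ (ext1 (xm c.1 c.2.1) p.1.1) (ext1 (xm c.2.2.1 c.2.2.2) p.1.2)) = 0
  rw [← finsum_zero (α := Z1 (xm c.1 c.2.1) (xm c.2.2.1 c.2.2.2))]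
  refine finsum_congr fun p => ?_
  rw [tO_char2, mul_zero]

end

instance fact3 : Fact (Nat.Prime 3) := ⟨Nat.prime_three⟩

theorem Z0_three (c e : ZMod 3) : Z0 c e (-c) = 1 ∨ Z0 c e (-c) = 5 ∨ Z0 c e (-c) = 9 := by
  unfold Z0
  rw [Nat.card_eq_fintype_card]
  revert c e
  decide

theorem AO_three : AO (ZMod 3) _ (xH (1 : ZMod 3) 0) (yH 0 1) = 0 := by
  show (∑ᶠ p : Z1 (xH (1 : ZMod 3) 0) (yH 0 1),
      fO (ZMod 3) _ (ext1 (xH 1 0) p.1.1) (ext1 (yH 0 1) p.1.2)) = 0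
  rw [← finsum_comp_equiv (zhEquiv (1 : ZMod 3) 0 1).symm]
  refine finsum_eq_zero_of_forall_eq_zero ?_
  rintro ⟨⟨h, h'⟩, ⟨⟨a, b, c, d⟩, hv⟩⟩
  refine (fO_Mz (1 : ZMod 3) 0 1 (by simp) h h' a b c d).trans ?_
  have hbc : b = c := by
    simp only [lin] at hv
    linear_combination hv
  subst hbc
  simp only [Nat.card_zmod]
  rcases Z0_three b (d - a) with h1 | h1 | h1
  · rw [h1]
    norm_num
  · rw [h1]
    norm_num
  · rw [h1]
    norm_num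

theorem tO_three : tO (ZMod 3) _ (xH (1 : ZMod 3) 0) (yH 0 1) ≠ 0 := by
  have h1 := z1O_H (1 : ZMod 3) 0 1 (by simp)
  have h2 := AO_three
  simp only [tO, mulO, subO, cst, GO] at h1 h2 ⊢
  rw [h1, h2]
  simp only [Nat.card_zmod, c1, c2, valp, kap, eval_mul, eval_pow, eval_X, eval_sub, eval_one,
    eval_ofNat]
  norm_num

theorem total_three :
    (∑ᶠ c : ZMod 3 × ZMod 3 × ZMod 3 × ZMod 3,
      FO (ZMod 3) (ZMod 3 × ZMod 3 × ZMod 3) (xm c.1 c.2.1) (xm c.2.2.1 c.2.2.2)) ≠ 0 := by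
  have hFO : ∀ c : ZMod 3 × ZMod 3 × ZMod 3 × ZMod 3,
      FO (ZMod 3) (ZMod 3 × ZMod 3 × ZMod 3) (xm c.1 c.2.1) (xm c.2.2.1 c.2.2.2) =
      ∑ᶠ p : Z1 (xm c.1 c.2.1) (xm c.2.2.1 c.2.2.2),
    tO (ZMod 3) _ (ext1 (xm c.1 c.2.1) p.1.1) (ext1 (xm c.2.2.1 c.2.2.2) p.1.2) *
      tO (ZMod 3) _ (ext1 (xm c.1 c.2.1) p.1.1) (ext1 (xm c.2.2.1 c.2.2.2) p.1.2) := fun _ => rfl
  have hnn : ∀ c : ZMod 3 × ZMod 3 × ZMod 3 × ZMod 3, 0 ≤
      FO (ZMod 3) (ZMod 3 × ZMod 3 × ZMod 3) (xm c.1 c.2.1) (xm c.2.2.1 c.2.2.2) := by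
    intro c
    rw [hFO]
    exact finsum_nonneg fun p => mul_self_nonneg _
  rw [finsum_eq_sum_of_fintype]
  intro h
  rw [Finset.sum_eq_zero_iff_of_nonneg fun c _ => hnn c] at h
  have h1 := h (1, 0, 0, 1) (Finset.mem_univ _)
  rw [hFO] at h1
  simp only at h1
  have := finite_Z1 (xm (1 : ZMod 3) 0) (xm 0 1)
  have := Fintype.ofFinite (Z1 (xm (1 : ZMod 3) 0) (xm 0 1))
  rw [finsum_eq_sum_of_fintype, Finset.sum_eq_zero_iff_of_nonneg fun p _ => mul_self_nonneg _]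
    at h1
  have h2 := h1 ⟨((0, 1, 0), (0, 0, 1)), by rw [xm_apply, xm_apply]; simp⟩ (Finset.mem_univ _)
  exact tO_three (mul_self_eq_zero.1 h2)

theorem main : ¬ (∀ T : Tr, ∃ P : ℚ[X], ∀ (K : Type) [Field K] [Finite K],
      (S K T (Empty →₀ K) 0 0 : ℚ) = P.eval (Nat.card K : ℚ)) := by
  intro H
  obtain ⟨A, hA⟩ := rep_base rep_FO H
  have hz : A = 0 := by
    apply Polynomial.eq_zero_of_infinite_isRoot
    have hsub : Set.range (fun n : ℕ => ((2 : ℚ) ^ (n + 1))) ⊆ {x | A.IsRoot x} := by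
      rintro _ ⟨n, rfl⟩
      have h1 := hA (GaloisField 2 (n + 1))
      rw [total_char2, GaloisField.card 2 (n + 1) (Nat.succ_ne_zero n)] at h1
      show A.eval _ = 0
      rw [h1]
      push_cast
      rfl
    refine Set.Infinite.mono hsub ?_
    apply Set.infinite_range_of_injective
    intro a b hab
    have : (2 : ℚ) ^ (a + 1) = 2 ^ (b + 1) := hab
    have h3 := pow_right_injective₀ (M₀ := ℚ) (a := 2) (by norm_num) (by norm_num) this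
    omega
  have h3 := hA (ZMod 3)
  rw [hz, eval_zero] at h3
  exact total_three h3

end Pool.Agent.H236R3
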