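import Pool.Agent.H236R3.PathPart

set_option autoImplicit false

open Polynomial

namespace Pool.Agent.H236R3

/-- Functions of a vector space with two endomorphisms. -/
abbrev Ob : Type 1 := ∀ (K : Type) [Field K] (B : Type) [AddCommGroup B] [Module K B]
    (_ _ : B →ₗ[K] B), ℚ

noncomputable def lsum (K : Type) [Field K] (L : List (ℚ[X] × Tr)) (B : Type) [AddCommGroup B]
    [Module K B] (x y : B →ₗ[K] B) : ℚ :=
  (L.map (fun p => p.1.eval (Nat.card K : ℚ) * (S K p.2 B x y : ℚ))).sum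

/-- Representable functions. -/
def Rep (Φ : Ob) : Prop :=
  ∃ L : List (ℚ[X] × Tr), ∀ (K : Type) [Field K] [Finite K] (B : Type) [AddCommGroup B]
    [Module K B] [Finite B] (x y : B →ₗ[K] B), Φ K B x y = lsum K L B x y

theorem rep_const (c : ℚ[X]) : Rep (fun K _ _ _ _ _ _ => c.eval (Nat.card K : ℚ)) := by
  refine ⟨[(c, .nil)], fun K _ _ B _ _ _ x y => ?_⟩
  have : S K .nil B x y = 1 := rfl
  simp [lsum, this]

theorem rep_add {Φ Ψ : Ob} (h1 : Rep Φ) (h2 : Rep Ψ) :
    Rep (fun K _ B _ _ x y => Φ K B x y + Ψ K B x y) := by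
  obtain ⟨L1, h1⟩ := h1
  obtain ⟨L2, h2⟩ := h2
  refine ⟨L1 ++ L2, fun K _ _ B _ _ _ x y => ?_⟩
  show Φ K B x y + Ψ K B x y = _
  rw [h1, h2]
  simp [lsum]

theorem lsum_mul (K : Type) [Field K] (L1 L2 : List (ℚ[X] × Tr)) (B : Type) [AddCommGroup B]
    [Module K B] (x y : B →ₗ[K] B) :
    lsum K (L1.flatMap fun p => L2.map fun r => (p.1 * r.1, Tr.par p.2 r.2)) B x y =
      lsum K L1 B x y * lsum K L2 B x y := by
  induction L1 with
  | nil => simp [lsum]
  | cons a L ih =>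
    have h1 : lsum K (a :: L) B x y = a.1.eval (Nat.card K : ℚ) * (S K a.2 B x y : ℚ) +
        lsum K L B x y := by
      simp [lsum]
    rw [h1, List.flatMap_cons, add_mul, ← ih]
    have h2 : ∀ M N : List (ℚ[X] × Tr), lsum K (M ++ N) B x y = lsum K M B x y + lsum K N B x y := by
      intro M N
      simp [lsum]
    rw [h2]
    congr 1
    simp only [lsum, List.map_map]
    rw [← List.sum_map_mul_left]
    congr 1
    apply List.map_congr_left
    intro r _
    have h3 : S K (Tr.par a.2 r.2) B x y = S K a.2 B x y * S K r.2 B x y := rfl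
    simp only [Function.comp, h3, eval_mul, Nat.cast_mul]
    ring

theorem rep_mul {Φ Ψ : Ob} (h1 : Rep Φ) (h2 : Rep Ψ) :
    Rep (fun K _ B _ _ x y => Φ K B x y * Ψ K B x y) := by
  obtain ⟨L1, h1⟩ := h1
  obtain ⟨L2, h2⟩ := h2
  refine ⟨L1.flatMap fun p => L2.map fun r => (p.1 * r.1, Tr.par p.2 r.2),
    fun K _ _ B _ _ _ x y => ?_⟩
  show Φ K B x y * Ψ K B x y = _
  rw [h1, h2, lsum_mul]

theorem rep_sub {Φ Ψ : Ob} (h1 : Rep Φ) (h2 : Rep Ψ) :
    Rep (fun K _ B _ _ x y => Φ K B x y - Ψ K B x y) := by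
  have h3 := rep_add h1 (rep_mul (rep_const (C (-1))) h2)
  have h4 : (fun (K : Type) [Field K] (B : Type) [AddCommGroup B] [Module K B]
      (x y : B →ₗ[K] B) => Φ K B x y - Ψ K B x y) = (fun (K : Type) [Field K] (B : Type)
      [AddCommGroup B] [Module K B] (x y : B →ₗ[K] B) =>
        Φ K B x y + (C (-1 : ℚ)).eval (Nat.card K : ℚ) * Ψ K B x y) := by
    funext K _ B _ _ x y
    simp [sub_eq_add_neg]
  rw [h4]
  exact h3

/-- One-dimensional data. -/
def Z1 {K B : Type} [Field K] [AddCommGroup B] [Module K B] (x y : B →ₗ[K] B) : Type :=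
  {p : B × B // y p.1 = x p.2}

noncomputable def ext1 {K B : Type} [Field K] [AddCommGroup B] [Module K B] (x : B →ₗ[K] B)
    (a : B) : (B × K) →ₗ[K] (B × K) :=
  (LinearMap.inl K B K).comp (LinearMap.coprod x (LinearMap.toSpanSingleton K B a))

theorem ext1_apply {K B : Type} [Field K] [AddCommGroup B] [Module K B] (x : B →ₗ[K] B)
    (a b : B) (c : K) : ext1 x a (b, c) = (x b + c • a, 0) := by
  simp [ext1]

def zcEquiv1 {K B : Type} [Field K] [AddCommGroup B] [Module K B] (x y : B →ₗ[K] B) :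
    Zc x y 1 ≃ Z1 x y where
  toFun z := ⟨z.1 0, z.2 0⟩
  invFun p := ⟨fun _ => p.1, fun _ => p.2⟩
  left_inv z := by
    apply Subtype.ext
    funext k
    rw [Subsingleton.elim k 0]
  right_inv p := rfl

theorem S_ext1 {K B : Type} [Field K] [AddCommGroup B] [Module K B] (T : Tr) (x y : B →ₗ[K] B) :
    S K (.ext 1 T) B x y = ∑ᶠ p : Z1 x y, S K T (B × K) (ext1 x p.1.1) (ext1 y p.1.2) := by
  show (∑ᶠ z : Zc x y 1, S K T (B × (Fin 1 → K)) (extMap 1 x (fun k => (z.1 k).1))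
      (extMap 1 y (fun k => (z.1 k).2))) = _
  rw [← finsum_comp_equiv (zcEquiv1 x y)]
  refine finsum_congr fun z => ?_
  refine S_iso T (LinearEquiv.prodCongr (LinearEquiv.refl K B) (LinearEquiv.funUnique (Fin 1) K K))
    _ _ _ _ ?_ ?_
  · rintro ⟨b, c⟩
    rw [extMap_apply]
    simp only [LinearEquiv.prodCongr_apply, LinearEquiv.refl_apply]
    rw [ext1_apply]
    simp [zcEquiv1]
  · rintro ⟨b, c⟩
    rw [extMap_apply]
    simp only [LinearEquiv.prodCongr_apply, LinearEquiv.refl_apply]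
    rw [ext1_apply]
    simp [zcEquiv1]

theorem finite_Z1 {K B : Type} [Field K] [AddCommGroup B] [Module K B] [Finite B]
    (x y : B →ₗ[K] B) : Finite (Z1 x y) := Subtype.finite

theorem rep_ext1 {Φ : Ob} (h : Rep Φ) :
    Rep (fun K _ B _ _ x y => ∑ᶠ p : Z1 x y, Φ K (B × K) (ext1 x p.1.1) (ext1 y p.1.2)) := by
  obtain ⟨L, h⟩ := h
  refine ⟨L.map fun p => (p.1, Tr.ext 1 p.2), fun K _ _ B _ _ _ x y => ?_⟩
  have := finite_Z1 x y
  have := Fintype.ofFinite (Z1 x y)
  have h0 : ∀ p : Z1 x y, Φ K (B × K) (ext1 x p.1.1) (ext1 y p.1.2) =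
      lsum K L (B × K) (ext1 x p.1.1) (ext1 y p.1.2) := fun p => h K _ _ _
  simp only [h0]
  clear h0 h
  induction L with
  | nil => simp [lsum]
  | cons a L ih =>
    have h1 : ∀ (B : Type) [AddCommGroup B] [Module K B] (x y : B →ₗ[K] B) (a : ℚ[X] × Tr)
        (L : List (ℚ[X] × Tr)),
        lsum K (a :: L) B x y = a.1.eval (Nat.card K : ℚ) * (S K a.2 B x y : ℚ) +
        lsum K L B x y := by
      intros
      simp [lsum]
    rw [finsum_eq_sum_of_fintype] at ih ⊢
    rw [List.map_cons, h1, ← ih, S_ext1, finsum_eq_sum_of_fintype]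
    simp only [h1]
    rw [Finset.sum_add_distrib, Nat.cast_sum, Finset.mul_sum]

end Pool.Agent.H236R3
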