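import Pool.Agent.H236R3.Rec3

set_option autoImplicit false

namespace Pool.Agent.H236R3

/-- The quiver of a rooted system: one arrow from the parent of `v` to `v`. -/
@[reducible] def Sys.quiver {ι : Type} (s : Sys ι) : Quiver.{1} s.V :=
  ⟨fun u v => ULift.{1} (PLift (s.pa v = some u))⟩

attribute [local instance] Sys.quiver

def tow {V : Type} {J : V → Type} {A : Type} {o : Option V} (w : o.elim Empty J → A) {u : V}
    (h : o = some u) (z : J u) : A :=
  w (cast (by rw [h]; rfl) z)

theorem tow_inj {V : Type} {J : V → Type} {A : Type} {o : Option V} (w : o.elim Empty J → A)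
    (hw : Function.Injective w) {u : V} (h : o = some u) : Function.Injective (tow w h) := by
  subst h
  intro a b hab
  exact hw hab

theorem tow_range {V : Type} {J : V → Type} {A : Type} {o : Option V} (w : o.elim Empty J → A)
    {u : V} (h : o = some u) (z : J u) : ∃ t, tow w h z = w t := ⟨_, rfl⟩

theorem tow_surj {V : Type} {J : V → Type} {A : Type} {o : Option V} (w : o.elim Empty J → A)
    (t : o.elim Empty J) : ∃ (u : V) (h : o = some u) (z : J u), tow w h z = w t := by
  cases o with
  | none => exact Empty.elim t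
  | some u => exact ⟨u, rfl, t, rfl⟩

section

variable {K : Type} [Field K]

theorem key1 {V A : Type} {J : V → Type} (o : Option V) (w : o.elim Empty J → A)
    (F : (A →₀ K) →ₗ[K] (A →₀ K)) (f : ∀ v, (J v →₀ K) →ₗ[K] (J v →₀ K)) :
    (F.comp (Finsupp.lmapDomain K K w) = (Finsupp.lmapDomain K K w).comp (pf 0 f o)) ↔
      ∀ (u : V) (h : o = some u), F.comp (Finsupp.lmapDomain K K (tow w h)) =
        (Finsupp.lmapDomain K K (tow w h)).comp (f u) := by
  cases o with
  | none =>
    constructor
    · intro _ u h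
      exact absurd h (by simp)
    · intro _
      apply LinearMap.ext
      intro z
      have hz : z = 0 := by
        ext i
        exact Empty.elim i
      rw [hz, map_zero, map_zero]
  | some a =>
    constructor
    · intro hh u h
      cases h
      exact hh
    · intro hh
      exact hh a rfl

theorem key2 {V A : Type} {J : V → Type} (o : Option V) (w : o.elim Empty J → A) :
    (⨆ (u : V) (h : ULift.{1} (PLift (o = some u))),
        LinearMap.range (Finsupp.lmapDomain K K (tow w h.down.down)))
      = LinearMap.range (Finsupp.lmapDomain K K w) := by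
  cases o with
  | none =>
    apply le_antisymm
    · refine iSup_le fun u => iSup_le fun h => absurd h.down.down (by simp)
    · rintro _ ⟨z, rfl⟩
      have hz : z = 0 := by
        ext i
        exact Empty.elim i
      rw [hz, map_zero]
      exact Submodule.zero_mem _
  | some a =>
    apply le_antisymm
    · refine iSup_le fun u => iSup_le fun h => ?_
      obtain ⟨⟨h⟩⟩ := h
      cases h
      exact le_rfl
    · exact le_iSup_of_le a (le_iSup_of_le ⟨⟨rfl⟩⟩ le_rfl)

end

/-- Transport of indices along a path. -/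
def trp (s : Sys Empty) {i : s.V} : {v : s.V} → Quiver.Path i v → s.J i → s.J v
  | _, .nil => fun z => z
  | _, .cons p e => fun z => tow (s.up _) e.down.down (trp s p z)

def phi (s : Sys Empty) {v : s.V} (x : Σ i : s.V, Fin (s.dim i) × Quiver.Path i v) : s.J v :=
  trp s x.2.2 (s.tp x.1 x.2.1)

theorem phi_cons (s : Sys Empty) {u v : s.V} (e : u ⟶ v)
    (x : Σ i : s.V, Fin (s.dim i) × Quiver.Path i u) :
    phi s (⟨x.1, x.2.1, x.2.2.cons e⟩ : Σ i : s.V, Fin (s.dim i) × Quiver.Path i v) =
      tow (s.up v) e.down.down (phi s x) := rfl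

theorem phi_bij (s : Sys Empty) : ∀ (n : ℕ) (v : s.V), s.ht v < n →
    Function.Bijective (phi s (v := v)) := by
  intro n
  induction n with
  | zero => intro v hv; exact absurd hv (Nat.not_lt_zero _)
  | succ n ih =>
    intro v hv
    have hup : Function.Injective (s.up v) := fun a b hab =>
      Sum.inl_injective ((s.bij v).1 (a₁ := Sum.inl a) (a₂ := Sum.inl b) hab)
    have htp : Function.Injective (s.tp v) := fun a b hab =>
      Sum.inr_injective ((s.bij v).1 (a₁ := Sum.inr a) (a₂ := Sum.inr b) hab)
    have hne : ∀ a b, s.up v a ≠ s.tp v b := fun a b hab =>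
      absurd ((s.bij v).1 (a₁ := Sum.inl a) (a₂ := Sum.inr b) hab) (by simp)
    constructor
    · rintro ⟨i, k, p⟩ ⟨j, l, r⟩ h
      cases p with
      | nil =>
        cases r with
        | nil =>
          have : k = l := htp h
          subst this
          rfl
        | cons r e =>
          exact absurd h.symm (hne _ _)
      | @cons u _ p e =>
        cases r with
        | nil => exact absurd h (hne _ _)
        | @cons u' _ r e' =>
          obtain ⟨⟨e⟩⟩ := e
          obtain ⟨⟨e'⟩⟩ := e'
          have huu : u = u' := Option.some_injective _ (e.symm.trans e')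
          subst huu
          have h1 : phi s ⟨i, k, p⟩ = phi s ⟨j, l, r⟩ := tow_inj (s.up v) hup e h
          have h2 := (ih u (lt_of_lt_of_le (s.hht u v e) (Nat.lt_succ_iff.1 hv))).1 h1
          cases h2
          rfl
    · intro z
      obtain ⟨t, rfl⟩ := (s.bij v).2 z
      rcases t with t | k
      · obtain ⟨u, h, z', hz'⟩ := tow_surj (s.up v) t
        obtain ⟨x, hx⟩ := (ih u (lt_of_lt_of_le (s.hht u v h) (Nat.lt_succ_iff.1 hv))).2 z'
        refine ⟨⟨x.1, x.2.1, x.2.2.cons ⟨⟨h⟩⟩⟩, ?_⟩
        rw [phi_cons, hx]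
        exact hz'
      · exact ⟨⟨v, k, .nil⟩, rfl⟩

theorem path_len (s : Sys Empty) {u v : s.V} (p : Quiver.Path u v) :
    s.ht u + p.length ≤ s.ht v := by
  induction p with
  | nil => exact le_rfl
  | cons p e ih =>
    have := s.hht _ _ e.down.down
    simp only [Quiver.Path.length_cons]
    omega

section

variable (K : Type) [Field K]

noncomputable def Thv (s : Sys Empty) (v : s.V) :
    ((Σ i : s.V, Fin (s.dim i) × Quiver.Path i v) →₀ K) ≃ₗ[K] (s.J v →₀ K) :=
  Finsupp.domLCongr (Equiv.ofBijective (phi s (v := v)) (phi_bij s _ v (Nat.lt_succ_self _)))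

variable {K}

theorem Thv_apply (s : Sys Empty) (v : s.V)
    (z : (Σ i : s.V, Fin (s.dim i) × Quiver.Path i v) →₀ K) :
    Thv K s v z = Finsupp.mapDomain (phi s (v := v)) z := by
  unfold Thv
  rw [Finsupp.domLCongr_apply, Finsupp.domCongr_apply, Finsupp.equivMapDomain_eq_mapDomain]
  rfl

theorem Thv_arrow (s : Sys Empty) {u v : s.V} (e : u ⟶ v) :
    (Thv K s v).toLinearMap.comp (Finsupp.lmapDomain K K
      (fun x : (Σ i : s.V, Fin (s.dim i) × Quiver.Path i u) =>
        (⟨x.1, x.2.1, x.2.2.cons e⟩ : Σ i : s.V, Fin (s.dim i) × Quiver.Path i v))) =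
    (Finsupp.lmapDomain K K (tow (s.up v) e.down.down)).comp (Thv K s u).toLinearMap := by
  apply LinearMap.ext
  intro z
  simp only [LinearMap.comp_apply, LinearEquiv.coe_coe, Thv_apply, Finsupp.lmapDomain_apply]
  rw [← Finsupp.mapDomain_comp, ← Finsupp.mapDomain_comp]
  rfl

end

/-- The set counted in the problem. -/
def Froz (V : Type) [Quiver.{1} V] (d : V → ℕ) (K : Type) [Field K] : Type 1 :=
          {fg : (∀ v : V, ((Σ i : V, Fin (d i) × Quiver.Path i v) →₀ K) →ₗ[K]
                    ((Σ i : V, Fin (d i) × Quiver.Path i v) →₀ K)) ×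
                (∀ v : V, ((Σ i : V, Fin (d i) × Quiver.Path i v) →₀ K) →ₗ[K]
                    ((Σ i : V, Fin (d i) × Quiver.Path i v) →₀ K)) //
            (∀ (v w : V) (e : v ⟶ w),
              (fg.1 w).comp (Finsupp.lmapDomain K K
                (fun x : (Σ i : V, Fin (d i) × Quiver.Path i v) =>
                  (⟨x.1, x.2.1, x.2.2.cons e⟩ : Σ i : V, Fin (d i) × Quiver.Path i w))) =
              (Finsupp.lmapDomain K K
                (fun x : (Σ i : V, Fin (d i) × Quiver.Path i v) =>
                  (⟨x.1, x.2.1, x.2.2.cons e⟩ : Σ i : V, Fin (d i) × Quiver.Path i w))).comp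
                (fg.1 v)) ∧
            (∀ (v w : V) (e : v ⟶ w),
              (fg.2 w).comp (Finsupp.lmapDomain K K
                (fun x : (Σ i : V, Fin (d i) × Quiver.Path i v) =>
                  (⟨x.1, x.2.1, x.2.2.cons e⟩ : Σ i : V, Fin (d i) × Quiver.Path i w))) =
              (Finsupp.lmapDomain K K
                (fun x : (Σ i : V, Fin (d i) × Quiver.Path i v) =>
                  (⟨x.1, x.2.1, x.2.2.cons e⟩ : Σ i : V, Fin (d i) × Quiver.Path i w))).comp
                (fg.2 v)) ∧
            (∀ v : V, LinearMap.range (fg.1 v) ≤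
              ⨆ (u : V) (e : u ⟶ v), LinearMap.range (Finsupp.lmapDomain K K
                (fun x : (Σ i : V, Fin (d i) × Quiver.Path i u) =>
                  (⟨x.1, x.2.1, x.2.2.cons e⟩ : Σ i : V, Fin (d i) × Quiver.Path i v)))) ∧
            (∀ v : V, LinearMap.range (fg.2 v) ≤
              ⨆ (u : V) (e : u ⟶ v), LinearMap.range (Finsupp.lmapDomain K K
                (fun x : (Σ i : V, Fin (d i) × Quiver.Path i u) =>
                  (⟨x.1, x.2.1, x.2.2.cons e⟩ : Σ i : V, Fin (d i) × Quiver.Path i v)))) ∧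
            (∀ v : V, (fg.1 v).comp (fg.2 v) = (fg.2 v).comp (fg.1 v))}

section

variable {K : Type} [Field K]

theorem conj_arrow (s : Sys Empty)
    (f : ∀ v : s.V, ((Σ i : s.V, Fin (s.dim i) × Quiver.Path i v) →₀ K) →ₗ[K]
      ((Σ i : s.V, Fin (s.dim i) × Quiver.Path i v) →₀ K)) :
    (∀ (v w : s.V) (e : v ⟶ w),
      (f w).comp (Finsupp.lmapDomain K K
        (fun x : (Σ i : s.V, Fin (s.dim i) × Quiver.Path i v) =>
          (⟨x.1, x.2.1, x.2.2.cons e⟩ : Σ i : s.V, Fin (s.dim i) × Quiver.Path i w))) =
      (Finsupp.lmapDomain K K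
        (fun x : (Σ i : s.V, Fin (s.dim i) × Quiver.Path i v) =>
          (⟨x.1, x.2.1, x.2.2.cons e⟩ : Σ i : s.V, Fin (s.dim i) × Quiver.Path i w))).comp
        (f v)) ↔
    (∀ v, ((Thv K s v).conj (f v)).comp (s.U K v) =
      (s.U K v).comp (pf 0 (fun v => (Thv K s v).conj (f v)) (s.pa v))) := by
  have hk : ∀ v, (((Thv K s v).conj (f v)).comp (s.U K v) =
      (s.U K v).comp (pf 0 (fun v => (Thv K s v).conj (f v)) (s.pa v))) ↔ _ :=
    fun v => key1 (s.pa v) (s.up v) ((Thv K s v).conj (f v)) (fun v => (Thv K s v).conj (f v))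
  simp only [hk]
  constructor
  · intro H w v h
    have h1 := H v w ⟨⟨h⟩⟩
    have h2 := Thv_arrow (K := K) s (u := v) (v := w) ⟨⟨h⟩⟩
    apply LinearMap.ext
    intro z
    obtain ⟨z, rfl⟩ := (Thv K s v).surjective z
    have h3 := LinearMap.congr_fun h1 z
    have h4 := fun z => LinearMap.congr_fun h2 z
    simp only [LinearMap.comp_apply, LinearEquiv.coe_coe] at h3 h4
    simp only [LinearMap.comp_apply, LinearEquiv.conj_apply, LinearEquiv.coe_coe,
      LinearEquiv.symm_apply_apply]
    rw [← h4, LinearEquiv.symm_apply_apply, ← h4, h3]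
  · intro H v w e
    have h1 := H w v e.down.down
    have h2 := Thv_arrow (K := K) s e
    apply LinearMap.ext
    intro z
    apply (Thv K s w).injective
    have h3 := LinearMap.congr_fun h1 (Thv K s v z)
    have h4 := fun z => LinearMap.congr_fun h2 z
    simp only [LinearMap.comp_apply, LinearEquiv.coe_coe] at h4
    simp only [LinearMap.comp_apply, LinearEquiv.conj_apply, LinearEquiv.coe_coe,
      LinearEquiv.symm_apply_apply] at h3
    rw [← h4, LinearEquiv.symm_apply_apply, ← h4] at h3
    exact h3

theorem conj_range (s : Sys Empty) (v : s.V)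
    (f : ((Σ i : s.V, Fin (s.dim i) × Quiver.Path i v) →₀ K) →ₗ[K]
      ((Σ i : s.V, Fin (s.dim i) × Quiver.Path i v) →₀ K)) :
    (LinearMap.range f ≤
      ⨆ (u : s.V) (e : u ⟶ v), LinearMap.range (Finsupp.lmapDomain K K
        (fun x : (Σ i : s.V, Fin (s.dim i) × Quiver.Path i u) =>
          (⟨x.1, x.2.1, x.2.2.cons e⟩ : Σ i : s.V, Fin (s.dim i) × Quiver.Path i v)))) ↔
    LinearMap.range ((Thv K s v).conj f) ≤ LinearMap.range (s.U K v) := by
  have h1 : LinearMap.range ((Thv K s v).conj f) =
      (LinearMap.range f).map (Thv K s v).toLinearMap := by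
    rw [LinearEquiv.conj_apply, LinearMap.range_comp, LinearEquiv.range, Submodule.map_top,
      LinearMap.range_comp]
  have h2 : LinearMap.range (s.U K v) = (⨆ (u : s.V) (e : u ⟶ v), LinearMap.range
      (Finsupp.lmapDomain K K
        (fun x : (Σ i : s.V, Fin (s.dim i) × Quiver.Path i u) =>
          (⟨x.1, x.2.1, x.2.2.cons e⟩ : Σ i : s.V, Fin (s.dim i) × Quiver.Path i v)))).map
      (Thv K s v).toLinearMap := by
    have h3 : LinearMap.range (s.U K v) = _ := (key2 (K := K) (s.pa v) (s.up v)).symm
    rw [h3]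
    simp only [Submodule.map_iSup]
    refine iSup_congr fun u => iSup_congr fun e => ?_
    rw [← LinearMap.range_comp, Thv_arrow, LinearMap.range_comp, LinearEquiv.range,
      Submodule.map_top]
  rw [h1, h2]
  exact (Submodule.map_le_map_iff_of_injective (Thv K s v).injective _ _).symm

noncomputable def frozEquiv (s : Sys Empty) : Froz s.V s.dim K ≃ Rel K s 0 0 :=
  Equiv.subtypeEquiv
    (Equiv.prodCongr (Equiv.piCongrRight fun v => (Thv K s v).conj.toEquiv)
      (Equiv.piCongrRight fun v => (Thv K s v).conj.toEquiv))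
    (fun fg => by
      refine and_congr (conj_arrow s fg.1) (and_congr (conj_arrow s fg.2)
        (and_congr (forall_congr' fun v => conj_range s v (fg.1 v))
          (and_congr (forall_congr' fun v => conj_range s v (fg.2 v))
            (forall_congr' fun v => ?_))))
      show (fg.1 v).comp (fg.2 v) = (fg.2 v).comp (fg.1 v) ↔
        ((Thv K s v).conj (fg.1 v)).comp ((Thv K s v).conj (fg.2 v)) =
          ((Thv K s v).conj (fg.2 v)).comp ((Thv K s v).conj (fg.1 v))
      rw [← LinearEquiv.conj_comp, ← LinearEquiv.conj_comp]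
      exact (LinearEquiv.injective _).eq_iff.symm)

theorem card_froz [Finite K] (T : Tr) :
    Nat.card (Froz (T.sys Empty).V (T.sys Empty).dim K) = S K T (Empty →₀ K) 0 0 := by
  rw [Nat.card_congr (frozEquiv (T.sys Empty))]
  exact (card_rel T Empty 0 0 rfl).2

end

end Pool.Agent.H236R3
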