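import Pool.Agent.H236R3.Count

set_option autoImplicit false

namespace Pool.Agent.H236R3

section

variable {K : Type} [Field K]

def EP (K : Type) [Field K] (ι : Type) (d : ℕ) (x y : (ι →₀ K) →ₗ[K] (ι →₀ K)) : Type :=
  {p : (((ι ⊕ Fin d) →₀ K) →ₗ[K] ((ι ⊕ Fin d) →₀ K)) ×
      (((ι ⊕ Fin d) →₀ K) →ₗ[K] ((ι ⊕ Fin d) →₀ K)) //
    p.1.comp (Finsupp.lmapDomain K K (Sum.inl : ι → ι ⊕ Fin d)) =
      (Finsupp.lmapDomain K K (Sum.inl : ι → ι ⊕ Fin d)).comp x ∧
    p.2.comp (Finsupp.lmapDomain K K (Sum.inl : ι → ι ⊕ Fin d)) =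
      (Finsupp.lmapDomain K K (Sum.inl : ι → ι ⊕ Fin d)).comp y ∧
    LinearMap.range p.1 ≤ LinearMap.range (Finsupp.lmapDomain K K (Sum.inl : ι → ι ⊕ Fin d)) ∧
    LinearMap.range p.2 ≤ LinearMap.range (Finsupp.lmapDomain K K (Sum.inl : ι → ι ⊕ Fin d)) ∧
    p.1.comp p.2 = p.2.comp p.1}

theorem pf_some_eq {κ V : Type} {J : V → Type}
    (f : ∀ o : Option V, ((o.elim κ J →₀ K) →ₗ[K] (o.elim κ J →₀ K))) (o : Option V) :
    pf (J := J) (f none) (fun c => f (some c)) o = f o := by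
  cases o <;> rfl

def relExt {ι : Type} (d : ℕ) (s : Sys (ι ⊕ Fin d)) (x y : (ι →₀ K) →ₗ[K] (ι →₀ K)) :
    Rel K (Sys.ext d s) x y ≃ (Σ p : EP K ι d x y, Rel K s p.1.1 p.1.2) where
  toFun F := ⟨⟨(F.1.1 none, F.1.2 none), F.2.1 none, F.2.2.1 none, F.2.2.2.1 none,
      F.2.2.2.2.1 none, F.2.2.2.2.2 none⟩,
    ⟨(fun c => F.1.1 (some c), fun c => F.1.2 (some c)),
      fun c => (F.2.1 (some c)).trans
        (congrArg (LinearMap.comp (s.U K c)) (pf_some_eq F.1.1 (s.pa c)).symm),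
      fun c => (F.2.2.1 (some c)).trans
        (congrArg (LinearMap.comp (s.U K c)) (pf_some_eq F.1.2 (s.pa c)).symm),
      fun c => F.2.2.2.1 (some c), fun c => F.2.2.2.2.1 (some c),
      fun c => F.2.2.2.2.2 (some c)⟩⟩
  invFun G := ⟨(fun o => match o with
        | none => G.1.1.1
        | some c => G.2.1.1 c, fun o => match o with
        | none => G.1.1.2
        | some c => G.2.1.2 c),
      fun o => match o with
        | none => G.1.2.1
        | some c => (G.2.2.1 c).trans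
            (congrArg (LinearMap.comp (s.U K c)) (pf_some_eq (fun o => match o with
              | none => G.1.1.1
              | some c => G.2.1.1 c) (s.pa c))),
      fun o => match o with
        | none => G.1.2.2.1
        | some c => (G.2.2.2.1 c).trans
            (congrArg (LinearMap.comp (s.U K c)) (pf_some_eq (fun o => match o with
              | none => G.1.1.2
              | some c => G.2.1.2 c) (s.pa c))),
      fun o => match o with
        | none => G.1.2.2.2.1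
        | some c => G.2.2.2.2.1 c,
      fun o => match o with
        | none => G.1.2.2.2.2.1
        | some c => G.2.2.2.2.2.1 c,
      fun o => match o with
        | none => G.1.2.2.2.2.2
        | some c => G.2.2.2.2.2.2 c⟩
  left_inv F := by
    apply Subtype.ext
    apply Prod.ext
    · funext o
      match o with
      | none => rfl
      | some c => rfl
    · funext o
      match o with
      | none => rfl
      | some c => rfl
  right_inv G := rfl

theorem keyL {ι V₁ V₂ A : Type} {J₁ : V₁ → Type} {J₂ : V₂ → Type} (o : Option V₁)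
    (u : o.elim ι J₁ → A) (x : (ι →₀ K) →ₗ[K] (ι →₀ K)) (F : (A →₀ K) →ₗ[K] (A →₀ K))
    (f : ∀ v : V₁ ⊕ V₂, (Sum.elim J₁ J₂ v →₀ K) →ₗ[K] (Sum.elim J₁ J₂ v →₀ K)) :
    (F.comp (Finsupp.lmapDomain K K (u ∘ castL o)) =
      (Finsupp.lmapDomain K K (u ∘ castL o)).comp (pf x f (o.map Sum.inl))) ↔
    (F.comp (Finsupp.lmapDomain K K u) =
      (Finsupp.lmapDomain K K u).comp (pf x (fun a => f (Sum.inl a)) o)) := by
  cases o <;> exact Iff.rfl

theorem keyR {ι V₁ V₂ A : Type} {J₁ : V₁ → Type} {J₂ : V₂ → Type} (o : Option V₂)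
    (u : o.elim ι J₂ → A) (x : (ι →₀ K) →ₗ[K] (ι →₀ K)) (F : (A →₀ K) →ₗ[K] (A →₀ K))
    (f : ∀ v : V₁ ⊕ V₂, (Sum.elim J₁ J₂ v →₀ K) →ₗ[K] (Sum.elim J₁ J₂ v →₀ K)) :
    (F.comp (Finsupp.lmapDomain K K (u ∘ castR o)) =
      (Finsupp.lmapDomain K K (u ∘ castR o)).comp (pf x f (o.map Sum.inr))) ↔
    (F.comp (Finsupp.lmapDomain K K u) =
      (Finsupp.lmapDomain K K u).comp (pf x (fun a => f (Sum.inr a)) o)) := by
  cases o <;> exact Iff.rfl

theorem rangeL {ι V₁ V₂ A : Type} {J₁ : V₁ → Type} {J₂ : V₂ → Type} (o : Option V₁)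
    (u : o.elim ι J₁ → A) :
    LinearMap.range (Finsupp.lmapDomain K K (u ∘ castL (V₂ := V₂) (J₂ := J₂) o)) =
      LinearMap.range (Finsupp.lmapDomain K K u) := by
  cases o <;> rfl

theorem rangeR {ι V₁ V₂ A : Type} {J₁ : V₁ → Type} {J₂ : V₂ → Type} (o : Option V₂)
    (u : o.elim ι J₂ → A) :
    LinearMap.range (Finsupp.lmapDomain K K (u ∘ castR (V₁ := V₁) (J₁ := J₁) o)) =
      LinearMap.range (Finsupp.lmapDomain K K u) := by
  cases o <;> rfl

def relPar {ι : Type} (s₁ s₂ : Sys ι) (x y : (ι →₀ K) →ₗ[K] (ι →₀ K)) :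
    Rel K (Sys.par s₁ s₂) x y ≃ Rel K s₁ x y × Rel K s₂ x y where
  toFun F := (⟨(fun a => F.1.1 (Sum.inl a), fun a => F.1.2 (Sum.inl a)),
      fun a => (keyL (s₁.pa a) (s₁.up a) x _ F.1.1).1 (F.2.1 (Sum.inl a)),
      fun a => (keyL (s₁.pa a) (s₁.up a) y _ F.1.2).1 (F.2.2.1 (Sum.inl a)),
      fun a => (F.2.2.2.1 (Sum.inl a)).trans (rangeL (s₁.pa a) (s₁.up a)).le,
      fun a => (F.2.2.2.2.1 (Sum.inl a)).trans (rangeL (s₁.pa a) (s₁.up a)).le,
      fun a => F.2.2.2.2.2 (Sum.inl a)⟩,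
    ⟨(fun a => F.1.1 (Sum.inr a), fun a => F.1.2 (Sum.inr a)),
      fun a => (keyR (s₂.pa a) (s₂.up a) x _ F.1.1).1 (F.2.1 (Sum.inr a)),
      fun a => (keyR (s₂.pa a) (s₂.up a) y _ F.1.2).1 (F.2.2.1 (Sum.inr a)),
      fun a => (F.2.2.2.1 (Sum.inr a)).trans (rangeR (s₂.pa a) (s₂.up a)).le,
      fun a => (F.2.2.2.2.1 (Sum.inr a)).trans (rangeR (s₂.pa a) (s₂.up a)).le,
      fun a => F.2.2.2.2.2 (Sum.inr a)⟩)
  invFun G := ⟨(fun v => match v with
        | Sum.inl a => G.1.1.1 a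
        | Sum.inr b => G.2.1.1 b, fun v => match v with
        | Sum.inl a => G.1.1.2 a
        | Sum.inr b => G.2.1.2 b),
      fun v => match v with
        | Sum.inl a => (keyL (s₁.pa a) (s₁.up a) x _ _).2 (G.1.2.1 a)
        | Sum.inr b => (keyR (s₂.pa b) (s₂.up b) x _ _).2 (G.2.2.1 b),
      fun v => match v with
        | Sum.inl a => (keyL (s₁.pa a) (s₁.up a) y _ _).2 (G.1.2.2.1 a)
        | Sum.inr b => (keyR (s₂.pa b) (s₂.up b) y _ _).2 (G.2.2.2.1 b),
      fun v => match v with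
        | Sum.inl a => (G.1.2.2.2.1 a).trans (rangeL (s₁.pa a) (s₁.up a)).ge
        | Sum.inr b => (G.2.2.2.2.1 b).trans (rangeR (s₂.pa b) (s₂.up b)).ge,
      fun v => match v with
        | Sum.inl a => (G.1.2.2.2.2.1 a).trans (rangeL (s₁.pa a) (s₁.up a)).ge
        | Sum.inr b => (G.2.2.2.2.2.1 b).trans (rangeR (s₂.pa b) (s₂.up b)).ge,
      fun v => match v with
        | Sum.inl a => G.1.2.2.2.2.2 a
        | Sum.inr b => G.2.2.2.2.2.2 b⟩
  left_inv F := by
    apply Subtype.ext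
    apply Prod.ext
    · funext o
      match o with
      | Sum.inl a => rfl
      | Sum.inr c => rfl
    · funext o
      match o with
      | Sum.inl a => rfl
      | Sum.inr c => rfl
  right_inv G := rfl

end

end Pool.Agent.H236R3
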