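import Pool.Agent.H236R3.Rec

set_option autoImplicit false

namespace Pool.Agent.H236R3

section

variable {K : Type} [Field K]

noncomputable def Th (K : Type) [Field K] (ι : Type) (d : ℕ) :
    ((ι ⊕ Fin d) →₀ K) ≃ₗ[K] (ι →₀ K) × (Fin d → K) :=
  (Finsupp.sumFinsuppLEquivProdFinsupp K).trans
    (LinearEquiv.prodCongr (LinearEquiv.refl K _) (Finsupp.linearEquivFunOnFinite K K (Fin d)))

theorem Th_inl (ι : Type) (d : ℕ) (b : ι →₀ K) :
    Th K ι d (Finsupp.lmapDomain K K (Sum.inl : ι → ι ⊕ Fin d) b) = (b, 0) := by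
  apply Prod.ext
  · ext i
    simp only [Th, LinearEquiv.trans_apply, LinearEquiv.prodCongr_apply, LinearEquiv.refl_apply]
    show (Finsupp.mapDomain Sum.inl b) (Sum.inl i) = b i
    exact Finsupp.mapDomain_apply Sum.inl_injective b i
  · funext k
    simp only [Th, LinearEquiv.trans_apply, LinearEquiv.prodCongr_apply]
    show (Finsupp.mapDomain Sum.inl b) (Sum.inr k) = 0
    exact Finsupp.mapDomain_of_notMem_range b _ (by simp)

theorem Th_symm_inl (ι : Type) (d : ℕ) (b : ι →₀ K) :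
    (Th K ι d).symm (b, 0) = Finsupp.lmapDomain K K (Sum.inl : ι → ι ⊕ Fin d) b := by
  rw [← Th_inl, LinearEquiv.symm_apply_apply]

theorem mem_range_inl (ι : Type) (d : ℕ) (w : (ι ⊕ Fin d) →₀ K) :
    w ∈ LinearMap.range (Finsupp.lmapDomain K K (Sum.inl : ι → ι ⊕ Fin d)) ↔
      (Th K ι d w).2 = 0 := by
  constructor
  · rintro ⟨b, rfl⟩
    rw [Th_inl]
  · intro h
    refine ⟨(Th K ι d w).1, ?_⟩
    rw [← Th_symm_inl, ← h]
    simp

/-- The first coordinates of the images of the new basis vectors. -/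
noncomputable def col {ι : Type} {d : ℕ} (P : ((ι ⊕ Fin d) →₀ K) →ₗ[K] ((ι ⊕ Fin d) →₀ K))
    (k : Fin d) : ι →₀ K :=
  (Th K ι d (P ((Th K ι d).symm (0, Pi.single k 1)))).1

theorem ext_formula {ι : Type} {d : ℕ} (P : ((ι ⊕ Fin d) →₀ K) →ₗ[K] ((ι ⊕ Fin d) →₀ K))
    (x : (ι →₀ K) →ₗ[K] (ι →₀ K))
    (h1 : P.comp (Finsupp.lmapDomain K K (Sum.inl : ι → ι ⊕ Fin d)) =
      (Finsupp.lmapDomain K K (Sum.inl : ι → ι ⊕ Fin d)).comp x)
    (h2 : LinearMap.range P ≤ LinearMap.range (Finsupp.lmapDomain K K (Sum.inl : ι → ι ⊕ Fin d)))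
    (w : (ι ⊕ Fin d) →₀ K) :
    Th K ι d (P w) = extMap d x (col P) (Th K ι d w) := by
  obtain ⟨⟨b, c⟩, rfl⟩ := (Th K ι d).symm.surjective w
  rw [LinearEquiv.apply_symm_apply, extMap_apply]
  have hbc : (b, c) = (b, 0) + ∑ k, c k • ((0 : ι →₀ K), (Pi.single k 1 : Fin d → K)) := by
    apply Prod.ext
    · simp only [Prod.fst_add, Prod.fst_sum, Prod.smul_fst, smul_zero, Finset.sum_const_zero,
        add_zero]
    · simp only [Prod.snd_add, Prod.snd_sum, Prod.smul_snd, zero_add]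
      funext j
      simp [Finset.sum_apply, Pi.single_apply]
  have hI : P ((Th K ι d).symm (b, 0)) = (Th K ι d).symm (x b, 0) := by
    rw [Th_symm_inl, Th_symm_inl]
    exact LinearMap.congr_fun h1 b
  have hk : ∀ k, Th K ι d (P ((Th K ι d).symm (0, Pi.single k 1))) = (col P k, 0) := by
    intro k
    apply Prod.ext
    · rfl
    · exact (mem_range_inl ι d _).1 (h2 ⟨_, rfl⟩)
  rw [hbc, map_add, map_add, hI, map_add, LinearEquiv.apply_symm_apply, map_sum, map_sum, map_sum]
  simp only [map_smul, hk]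
  apply Prod.ext
  · simp [Prod.fst_sum]
  · simp [Prod.snd_sum]

theorem extMap_comm {B : Type} [AddCommGroup B] [Module K B] {d : ℕ} {x y : B →ₗ[K] B}
    (hxy : x.comp y = y.comp x) (z : Zc x y d) :
    (extMap d x (fun k => (z.1 k).1)).comp (extMap d y (fun k => (z.1 k).2)) =
      (extMap d y (fun k => (z.1 k).2)).comp (extMap d x (fun k => (z.1 k).1)) := by
  apply LinearMap.ext
  rintro ⟨b, c⟩
  simp only [LinearMap.comp_apply, extMap_apply, Pi.zero_apply, zero_smul, Finset.sum_const_zero,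
    add_zero, map_add, map_sum, map_smul]
  have h := LinearMap.congr_fun hxy b
  simp only [LinearMap.comp_apply] at h
  rw [h]
  congr 2
  exact Finset.sum_congr rfl fun k _ => by rw [z.2 k]

/-- Lift an endomorphism of the product to finitely supported functions. -/
noncomputable def lift {ι : Type} {d : ℕ}
    (P : ((ι →₀ K) × (Fin d → K)) →ₗ[K] ((ι →₀ K) × (Fin d → K))) :
    ((ι ⊕ Fin d) →₀ K) →ₗ[K] ((ι ⊕ Fin d) →₀ K) :=
  (Th K ι d).symm.toLinearMap.comp (P.comp (Th K ι d).toLinearMap)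

theorem lift_apply {ι : Type} {d : ℕ}
    (P : ((ι →₀ K) × (Fin d → K)) →ₗ[K] ((ι →₀ K) × (Fin d → K))) (w : (ι ⊕ Fin d) →₀ K) :
    Th K ι d (lift P w) = P (Th K ι d w) := by
  simp [lift]

theorem lift_inl {ι : Type} {d : ℕ} (x : (ι →₀ K) →ₗ[K] (ι →₀ K)) (a : Fin d → (ι →₀ K)) :
    (lift (extMap d x a)).comp (Finsupp.lmapDomain K K (Sum.inl : ι → ι ⊕ Fin d)) =
      (Finsupp.lmapDomain K K (Sum.inl : ι → ι ⊕ Fin d)).comp x := by
  apply LinearMap.ext
  intro b
  apply (Th K ι d).injective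
  rw [LinearMap.comp_apply, lift_apply, Th_inl, extMap_apply, LinearMap.comp_apply, Th_inl]
  simp

theorem lift_range {ι : Type} {d : ℕ} (x : (ι →₀ K) →ₗ[K] (ι →₀ K)) (a : Fin d → (ι →₀ K)) :
    LinearMap.range (lift (extMap d x a)) ≤
      LinearMap.range (Finsupp.lmapDomain K K (Sum.inl : ι → ι ⊕ Fin d)) := by
  rintro _ ⟨w, rfl⟩
  rw [mem_range_inl, lift_apply]
  obtain ⟨b, c⟩ := Th K ι d w
  rw [extMap_apply]

theorem col_lift {ι : Type} {d : ℕ} (x : (ι →₀ K) →ₗ[K] (ι →₀ K)) (a : Fin d → (ι →₀ K)) :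
    col (lift (extMap d x a)) = a := by
  funext k
  unfold col
  rw [lift_apply, LinearEquiv.apply_symm_apply, extMap_apply]
  simp [Pi.single_apply]

noncomputable def epEquiv (ι : Type) (d : ℕ) (x y : (ι →₀ K) →ₗ[K] (ι →₀ K))
    (hxy : x.comp y = y.comp x) : EP K ι d x y ≃ Zc x y d where
  toFun p := ⟨fun k => (col p.1.1 k, col p.1.2 k), by
    intro k
    have h1 := ext_formula p.1.1 x p.2.1 p.2.2.2.1
    have h2 := ext_formula p.1.2 y p.2.2.1 p.2.2.2.2.1
    have h3 := LinearMap.congr_fun p.2.2.2.2.2 ((Th K ι d).symm (0, Pi.single k 1))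
    simp only [LinearMap.comp_apply] at h3
    have h4 := congrArg (Th K ι d) h3
    rw [h1, h2, h2, h1, LinearEquiv.apply_symm_apply, extMap_apply, extMap_apply, extMap_apply,
      extMap_apply] at h4
    have h5 := congrArg Prod.fst h4
    simpa [Pi.single_apply] using h5.symm⟩
  invFun z := ⟨(lift (extMap d x (fun k => (z.1 k).1)), lift (extMap d y (fun k => (z.1 k).2))),
    lift_inl _ _, lift_inl _ _, lift_range _ _, lift_range _ _, by
      apply LinearMap.ext
      intro w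
      apply (Th K ι d).injective
      simp only [LinearMap.comp_apply, lift_apply]
      exact LinearMap.congr_fun (extMap_comm hxy z) _⟩
  left_inv p := by
    apply Subtype.ext
    apply Prod.ext
    · apply LinearMap.ext
      intro w
      apply (Th K ι d).injective
      show Th K ι d (lift (extMap d x (col p.1.1)) w) = _
      rw [lift_apply, ext_formula p.1.1 x p.2.1 p.2.2.2.1]
    · apply LinearMap.ext
      intro w
      apply (Th K ι d).injective
      show Th K ι d (lift (extMap d y (col p.1.2)) w) = _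
      rw [lift_apply, ext_formula p.1.2 y p.2.2.1 p.2.2.2.2.1]
  right_inv z := by
    apply Subtype.ext
    funext k
    apply Prod.ext
    · exact congrFun (col_lift x _) k
    · exact congrFun (col_lift y _) k

end

end Pool.Agent.H236R3
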