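import Pool.Agent.H236R3.Rec2

set_option autoImplicit false

namespace Pool.Agent.H236R3

section

variable {K : Type} [Field K]

theorem finite_fs [Finite K] (ι : Type) [Finite ι] : Finite (ι →₀ K) :=
  DFunLike.finite _

theorem finite_end [Finite K] (A B : Type) [AddCommGroup A] [Module K A] [AddCommGroup B]
    [Module K B] [Finite A] [Finite B] : Finite (A →ₗ[K] B) :=
  DFunLike.finite _

theorem card_rel [Finite K] (T : Tr) : ∀ (ι : Type) [Finite ι] (x y : (ι →₀ K) →ₗ[K] (ι →₀ K))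
    (_hxy : x.comp y = y.comp x), Finite (Rel K (T.sys ι) x y) ∧
      Nat.card (Rel K (T.sys ι) x y) = S K T (ι →₀ K) x y := by
  induction T with
  | nil =>
    intro ι _ x y _
    have hs : Subsingleton (Rel K (Tr.sys .nil ι) x y) := by
      refine ⟨fun F G => Subtype.ext (Prod.ext ?_ ?_)⟩
      · funext v
        exact Empty.elim v
      · funext v
        exact Empty.elim v
    have hn : Nonempty (Rel K (Tr.sys .nil ι) x y) :=
      ⟨⟨(fun v => Empty.elim v, fun v => Empty.elim v), fun v => Empty.elim v,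
        fun v => Empty.elim v, fun v => Empty.elim v, fun v => Empty.elim v,
        fun v => Empty.elim v⟩⟩
    refine ⟨Finite.of_subsingleton, ?_⟩
    show Nat.card (Rel K (Tr.sys .nil ι) x y) = 1
    exact Nat.card_eq_one_iff_unique.2 ⟨hs, hn⟩
  | ext d T ih =>
    intro ι _ x y hxy
    have hfe : Finite (EP K ι d x y) := by
      have := finite_fs (K := K) (ι ⊕ Fin d)
      have := finite_end (K := K) ((ι ⊕ Fin d) →₀ K) ((ι ⊕ Fin d) →₀ K)
      exact Subtype.finite
    have hff : ∀ p : EP K ι d x y, Finite (Rel K (T.sys (ι ⊕ Fin d)) p.1.1 p.1.2) :=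
      fun p => (ih (ι ⊕ Fin d) p.1.1 p.1.2 p.2.2.2.2.2).1
    have e := relExt (K := K) d (T.sys (ι ⊕ Fin d)) x y
    refine ⟨Finite.of_equiv _ e.symm, ?_⟩
    show Nat.card (Rel K (Sys.ext d (T.sys (ι ⊕ Fin d))) x y) = ∑ᶠ z : Zc x y d,
      S K T ((ι →₀ K) × (Fin d → K)) (extMap d x (fun k => (z.1 k).1))
        (extMap d y (fun k => (z.1 k).2))
    rw [Nat.card_congr e]
    have := Fintype.ofFinite (EP K ι d x y)
    rw [Nat.card_sigma, ← finsum_comp_equiv (epEquiv ι d x y hxy), finsum_eq_sum_of_fintype]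
    refine Finset.sum_congr rfl fun p _ => ?_
    rw [(ih (ι ⊕ Fin d) p.1.1 p.1.2 p.2.2.2.2.2).2]
    exact S_iso T (Th K ι d) _ _ _ _ (ext_formula p.1.1 x p.2.1 p.2.2.2.1)
      (ext_formula p.1.2 y p.2.2.1 p.2.2.2.2.1)
  | par T₁ T₂ ih₁ ih₂ =>
    intro ι _ x y hxy
    have e := relPar (K := K) (T₁.sys ι) (T₂.sys ι) x y
    have h1 := ih₁ ι x y hxy
    have h2 := ih₂ ι x y hxy
    have := h1.1
    have := h2.1
    refine ⟨Finite.of_equiv _ e.symm, ?_⟩
    show Nat.card (Rel K (Sys.par (T₁.sys ι) (T₂.sys ι)) x y) =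
      S K T₁ (ι →₀ K) x y * S K T₂ (ι →₀ K) x y
    rw [Nat.card_congr e, Nat.card_prod, h1.2, h2.2]

end

end Pool.Agent.H236R3
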