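import Mathlib

set_option autoImplicit false

/-!
Rooted systems of index sets.  A vertex `v` of a rooted forest carries an index set `J v`, which is
the disjoint union of the index set of its parent (or of the base `ι`, for a root) and a set of
`dim v` new elements.
-/

namespace Pool.Agent.H236R3

structure Sys (ι : Type) where
  V : Type
  pa : V → Option V
  dim : V → ℕ
  J : V → Type
  up : ∀ v, (pa v).elim ι J → J v
  tp : ∀ v, Fin (dim v) → J v
  ht : V → ℕ
  finV : Finite V
  bij : ∀ v, Function.Bijective (Sum.elim (up v) (tp v))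
  hht : ∀ u v, pa v = some u → ht u < ht v

/-- Extend an endomorphism of the base and a family to parents. -/
def pf {K : Type} [Field K] {ι V : Type} {J : V → Type} (x : (ι →₀ K) →ₗ[K] (ι →₀ K))
    (f : ∀ v, (J v →₀ K) →ₗ[K] (J v →₀ K)) :
    (o : Option V) → ((o.elim ι J →₀ K) →ₗ[K] (o.elim ι J →₀ K))
  | none => x
  | some v => f v

noncomputable def Sys.U (K : Type) [Field K] {ι : Type} (s : Sys ι) (v : s.V) :
    ((s.pa v).elim ι s.J →₀ K) →ₗ[K] (s.J v →₀ K) :=
  Finsupp.lmapDomain K K (s.up v)

/-- Pairs of commuting families of endomorphisms over a given base pair. -/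
def Rel (K : Type) [Field K] {ι : Type} (s : Sys ι) (x y : (ι →₀ K) →ₗ[K] (ι →₀ K)) : Type :=
  {F : (∀ v, (s.J v →₀ K) →ₗ[K] (s.J v →₀ K)) × (∀ v, (s.J v →₀ K) →ₗ[K] (s.J v →₀ K)) //
    (∀ v, (F.1 v).comp (s.U K v) = (s.U K v).comp (pf x F.1 (s.pa v))) ∧
    (∀ v, (F.2 v).comp (s.U K v) = (s.U K v).comp (pf y F.2 (s.pa v))) ∧
    (∀ v, LinearMap.range (F.1 v) ≤ LinearMap.range (s.U K v)) ∧
    (∀ v, LinearMap.range (F.2 v) ≤ LinearMap.range (s.U K v)) ∧
    (∀ v, (F.1 v).comp (F.2 v) = (F.2 v).comp (F.1 v))}

/-- The empty forest. -/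
def Sys.nil (ι : Type) : Sys ι where
  V := Empty
  pa := fun v => v.elim
  dim := fun v => v.elim
  J := fun v => v.elim
  up := fun v => v.elim
  tp := fun v => v.elim
  ht := fun v => v.elim
  finV := inferInstance
  bij := fun v => v.elim
  hht := fun _ v => v.elim

/-- Put a new root of dimension `d` under a forest. -/
def Sys.ext {ι : Type} (d : ℕ) (s : Sys (ι ⊕ Fin d)) : Sys ι where
  V := Option s.V
  pa := fun o => match o with
    | none => none
    | some c => some (s.pa c)
  dim := fun o => match o with
    | none => d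
    | some c => s.dim c
  J := fun o => o.elim (ι ⊕ Fin d) s.J
  up := fun o => match o with
    | none => Sum.inl
    | some c => s.up c
  tp := fun o => match o with
    | none => Sum.inr
    | some c => s.tp c
  ht := fun o => match o with
    | none => 0
    | some c => s.ht c + 1
  finV := by
    have := s.finV
    infer_instance
  bij := by
    intro o
    match o with
    | none =>
      constructor
      · rintro (a | a) (b | b) h
        · exact congrArg Sum.inl (Sum.inl_injective h)
        · exact absurd h (by simp)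
        · exact absurd h (by simp)
        · exact congrArg Sum.inr (Sum.inr_injective h)
      · rintro (a | a)
        · exact ⟨Sum.inl a, rfl⟩
        · exact ⟨Sum.inr a, rfl⟩
    | some c => exact s.bij c
  hht := by
    intro u v h
    match v with
    | none => exact absurd h (by simp)
    | some c =>
      have h' : s.pa c = u := Option.some_injective _ h
      subst h'
      cases hc : s.pa c with
      | none => simp
      | some c' =>
        have := s.hht c' c hc
        simpa using this

def castL {ι V₁ V₂ : Type} {J₁ : V₁ → Type} {J₂ : V₂ → Type} :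
    (o : Option V₁) → (o.map (Sum.inl : V₁ → V₁ ⊕ V₂)).elim ι (Sum.elim J₁ J₂) → o.elim ι J₁
  | none => fun z => z
  | some _ => fun z => z

def castR {ι V₁ V₂ : Type} {J₁ : V₁ → Type} {J₂ : V₂ → Type} :
    (o : Option V₂) → (o.map (Sum.inr : V₂ → V₁ ⊕ V₂)).elim ι (Sum.elim J₁ J₂) → o.elim ι J₂
  | none => fun z => z
  | some _ => fun z => z

theorem castL_bij {ι V₁ V₂ : Type} {J₁ : V₁ → Type} {J₂ : V₂ → Type} (o : Option V₁) :
    Function.Bijective (castL (ι := ι) (V₂ := V₂) (J₁ := J₁) (J₂ := J₂) o) := by
  cases o
  · exact Function.bijective_id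
  · exact Function.bijective_id

theorem castR_bij {ι V₁ V₂ : Type} {J₁ : V₁ → Type} {J₂ : V₂ → Type} (o : Option V₂) :
    Function.Bijective (castR (ι := ι) (V₁ := V₁) (J₁ := J₁) (J₂ := J₂) o) := by
  cases o
  · exact Function.bijective_id
  · exact Function.bijective_id

theorem bij_aux {A B C D : Type} (c : A → B) (hc : Function.Bijective c) (u : B → D) (t : C → D)
    (h : Function.Bijective (Sum.elim u t)) : Function.Bijective (Sum.elim (u ∘ c) t) := by
  have : Sum.elim (u ∘ c) t = (Sum.elim u t) ∘ (Sum.map c id) := by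
    funext z
    rcases z with z | z <;> rfl
  rw [this]
  refine h.comp ?_
  constructor
  · exact Function.Injective.sumMap hc.1 Function.injective_id
  · exact Function.Surjective.sumMap hc.2 Function.surjective_id

/-- Disjoint union of two forests over the same base. -/
def Sys.par {ι : Type} (s₁ s₂ : Sys ι) : Sys ι where
  V := s₁.V ⊕ s₂.V
  pa := fun v => match v with
    | Sum.inl a => (s₁.pa a).map Sum.inl
    | Sum.inr b => (s₂.pa b).map Sum.inr
  dim := Sum.elim s₁.dim s₂.dim
  J := Sum.elim s₁.J s₂.J
  up := fun v => match v with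
    | Sum.inl a => s₁.up a ∘ castL (s₁.pa a)
    | Sum.inr b => s₂.up b ∘ castR (s₂.pa b)
  tp := fun v => match v with
    | Sum.inl a => s₁.tp a
    | Sum.inr b => s₂.tp b
  ht := Sum.elim s₁.ht s₂.ht
  finV := by
    have := s₁.finV
    have := s₂.finV
    infer_instance
  bij := by
    intro v
    match v with
    | Sum.inl a => exact bij_aux _ (castL_bij _) _ _ (s₁.bij a)
    | Sum.inr b => exact bij_aux _ (castR_bij _) _ _ (s₂.bij b)
  hht := by
    intro u v h
    match v with
    | Sum.inl a =>
      obtain ⟨a', ha', rfl⟩ := Option.map_eq_some_iff.1 h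
      exact s₁.hht a' a ha'
    | Sum.inr b =>
      obtain ⟨b', hb', rfl⟩ := Option.map_eq_some_iff.1 h
      exact s₂.hht b' b hb'

end Pool.Agent.H236R3
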